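import Mathlib

namespace Pool.Agent.H.MP_e84969_co
open Module Finset

noncomputable def cnt {α : Type*} (p : α → Prop) : ℝ := (Set.ncard {a | p a} : ℝ)

section cnt
variable {α β : Type*}

lemma cnt_nonneg (p : α → Prop) : 0 ≤ cnt p := Nat.cast_nonneg _

lemma cnt_inj [Finite β] {p : α → Prop} {r : β → Prop} (f : α → β) (h : ∀ a, p a → r (f a))
    (hi : ∀ a b, p a → p b → f a = f b → a = b) : cnt p ≤ cnt r := by
  unfold cnt
  exact_mod_cast Set.ncard_le_ncard_of_injOn f h (fun a ha b hb => hi a b ha hb) (Set.toFinite _)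

lemma cnt_mono [Finite α] {p r : α → Prop} (h : ∀ a, p a → r a) : cnt p ≤ cnt r :=
  cnt_inj id h (fun _ _ _ _ h => h)

lemma cnt_surj [Finite α] {p : α → Prop} {r : β → Prop} (f : α → β)
    (h : ∀ b, r b → ∃ a, p a ∧ f a = b) : cnt r ≤ cnt p := by
  classical
  unfold cnt
  have : {b | r b} ⊆ f '' {a | p a} := fun b hb => h b hb
  exact_mod_cast (Set.ncard_le_ncard this (Set.toFinite _)).trans
    (Set.ncard_image_le (Set.toFinite _))

lemma cnt_eq_card [Fintype α] (p : α → Prop) [DecidablePred p] :
    cnt p = ((univ.filter p).card : ℝ) := by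
  unfold cnt
  rw [← Set.ncard_coe_finset]; simp

lemma cnt_true [Fintype α] : cnt (fun _ : α => True) = Fintype.card α := by
  classical
  rw [cnt_eq_card]; simp

lemma cnt_le_card [Fintype α] (p : α → Prop) : cnt p ≤ Fintype.card α := by
  rw [← cnt_true]; exact cnt_mono (fun _ _ => trivial)

lemma cnt_natCard (p : α → Prop) : cnt p = (Nat.card {a // p a} : ℝ) := by
  unfold cnt; rw [← Nat.card_coe_set_eq]; rfl

lemma cnt_sum [Finite α] {p : α → Prop} (s : Finset β) (r : β → α → Prop)
    (h : ∀ a, p a → ∃ b ∈ s, r b a) : cnt p ≤ ∑ b ∈ s, cnt (r b) := by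
  classical
  have := Fintype.ofFinite α
  simp only [cnt_eq_card]
  have h1 : univ.filter p ⊆ s.biUnion (fun b => univ.filter (r b)) := by
    intro a ha
    simp only [mem_filter, mem_univ, true_and, mem_biUnion] at ha ⊢
    exact h a ha
  exact_mod_cast (card_le_card h1).trans card_biUnion_le

lemma cnt_union [Finite α] [Finite β] {p : α → Prop} (s : β → Prop) (r : β → α → Prop) (c : ℝ)
    (h : ∀ a, p a → ∃ b, s b ∧ r b a) (hc : ∀ b, s b → cnt (r b) ≤ c) : cnt p ≤ cnt s * c := by
  classical
  have := Fintype.ofFinite β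
  refine (cnt_sum (univ.filter s) r (fun a ha => by simpa using h a ha)).trans ?_
  rw [cnt_eq_card s]
  refine (sum_le_card_nsmul _ _ c (fun b hb => hc b (by simpa using hb))).trans ?_
  simp

lemma cnt_or [Finite α] {p r s : α → Prop} (h : ∀ a, p a → r a ∨ s a) :
    cnt p ≤ cnt r + cnt s := by
  have := cnt_sum (p := p) (univ : Finset Bool) (fun b => if b then r else s) (fun a ha => by
    rcases h a ha with h | h
    · exact ⟨true, by simp, by simpa⟩
    · exact ⟨false, by simp, by simpa⟩)
  simpa using this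

lemma cnt_fib [Finite α] {p : α → Prop} (s : Finset β) (f : α → β) :
    ∑ b ∈ s, cnt (fun a => p a ∧ f a = b) ≤ cnt p := by
  classical
  have := Fintype.ofFinite α
  simp only [cnt_eq_card]
  have h := card_eq_sum_card_fiberwise (f := f) (s := univ.filter (fun a => p a ∧ f a ∈ s))
    (t := s) (fun a ha => by simp at ha; exact ha.2)
  have h2 : (univ.filter (fun a => p a ∧ f a ∈ s)).card ≤ (univ.filter p).card :=
    card_le_card (fun a ha => by simp at ha ⊢; exact ha.1)
  rw [h] at h2
  have h3 : ∀ b ∈ s, (univ.filter (fun a => p a ∧ f a = b)).card =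
      ((univ.filter (fun a => p a ∧ f a ∈ s)).filter (fun a => f a = b)).card := by
    intro b hb
    congr 1; ext a; simp only [mem_filter, mem_univ, true_and]
    constructor
    · rintro ⟨h1, h2⟩; exact ⟨⟨h1, h2 ▸ hb⟩, h2⟩
    · rintro ⟨⟨h1, _⟩, h2⟩; exact ⟨h1, h2⟩
  rw [← sum_congr rfl h3] at h2
  exact_mod_cast h2

lemma cnt_lower [Finite α] [Finite β] {p : α → Prop} (s : β → Prop) (f : α → β) (c : ℝ)
    (hc : ∀ b, s b → c ≤ cnt (fun a => p a ∧ f a = b)) : cnt s * c ≤ cnt p := by
  classical
  have := Fintype.ofFinite β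
  refine le_trans ?_ (cnt_fib (univ.filter s) f)
  rw [cnt_eq_card s]
  have := card_nsmul_le_sum (univ.filter s) (fun b => cnt (fun a => p a ∧ f a = b)) c
    (fun b hb => hc b (by simpa using hb))
  simpa using this

lemma cnt_false {p : α → Prop} (h : ∀ a, ¬ p a) : cnt p = 0 := by
  unfold cnt
  have : {a | p a} = ∅ := by ext a; simp [h a]
  simp [this]

end cnt

variable {F : Type} [Field F] [Fintype F]

lemma prod_lb (q : ℝ) (hq : 3 ≤ q) (j : ℕ) :
    q ^ (j * j) * (1 / 2 + 1 / (2 * q ^ j)) ≤ ∏ i ∈ range j, (q ^ j - q ^ i) := by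
  induction j with
  | zero => simp; norm_num
  | succ j ih =>
    rw [prod_range_succ']
    have h1 : ∏ i ∈ range j, (q ^ (j + 1) - q ^ (i + 1)) = q ^ j * ∏ i ∈ range j, (q ^ j - q ^ i) := by
      have e : q ^ j = ∏ _i ∈ range j, q := by simp
      conv_rhs => rw [e, ← prod_mul_distrib]
      exact prod_congr rfl (fun i _ => by rw [← e]; ring)
    rw [h1]
    have hx : (1 : ℝ) ≤ q ^ j := one_le_pow₀ (by linarith)
    have hq0 : 0 < q := by linarith
    set x := q ^ j with hxd
    have h2 : q ^ ((j + 1) * (j + 1)) = q ^ (j * j) * x * (x * q) := by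
      rw [hxd]; ring
    have h3 : q ^ (j + 1) = x * q := by rw [hxd]; ring
    rw [h2, h3, pow_zero]
    have hy : 0 < q ^ (j * j) := by positivity
    have h4 : (x * q) * (1 / 2 + 1 / (2 * (x * q))) ≤ (1 / 2 + 1 / (2 * x)) * (x * q - 1) := by
      have : 0 < x := by linarith
      field_simp
      nlinarith
    have h5 : 0 ≤ x * q - 1 := by nlinarith
    calc q ^ (j * j) * x * (x * q) * (1 / 2 + 1 / (2 * (x * q)))
        = q ^ (j * j) * x * ((x * q) * (1 / 2 + 1 / (2 * (x * q)))) := by ring
      _ ≤ q ^ (j * j) * x * ((1 / 2 + 1 / (2 * x)) * (x * q - 1)) := by gcongr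
      _ = x * (q ^ (j * j) * (1 / 2 + 1 / (2 * x))) * (x * q - 1) := by ring
      _ ≤ _ := by gcongr

section gauss
variable {V : Type} [AddCommGroup V] [Module F V] [Finite V]

lemma gauss_le (hq : 3 ≤ Fintype.card F) (j : ℕ) :
    cnt (fun W : Submodule F V => finrank F W = j) ≤
      2 * (Fintype.card F : ℝ) ^ (j * (finrank F V - j)) := by
  classical
  have hV := Fintype.ofFinite V
  set q : ℝ := (Fintype.card F : ℝ) with hqd
  have hq' : (3 : ℝ) ≤ q := by rw [hqd]; exact_mod_cast hq
  by_cases hj : finrank F V < j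
  · rw [cnt_false]; · positivity
    intro W hW
    have := Submodule.finrank_le W
    omega
  push Not at hj
  have h1 := cnt_lower (p := fun _ : Fin j → V => True) (fun W : Submodule F V => finrank F W = j)
    (fun s => Submodule.span F (Set.range s)) (q ^ (j * j) / 2) (by
      intro W hW
      have h2 := card_linearIndependent (K := F) (V := W) (k := j) hW.ge
      have h3 : cnt (fun s : Fin j → W => LinearIndependent F s) ≤
          cnt (fun a : Fin j → V => True ∧ Submodule.span F (Set.range a) = W) := by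
        refine cnt_inj (fun s i => (s i : V)) ?_ ?_
        · intro s hs
          refine ⟨trivial, ?_⟩
          have hs' : LinearIndependent F (fun i => (s i : V)) :=
            hs.map' W.subtype (Submodule.ker_subtype W)
          refine Submodule.eq_of_le_of_finrank_eq ?_ ?_
          · rw [Submodule.span_le]; rintro _ ⟨i, rfl⟩; exact (s i).2
          · rw [finrank_span_eq_card hs', hW]; simp
        · intro a b _ _ h; funext i; exact Subtype.ext (congrFun h i)
      refine le_trans ?_ h3
      rw [cnt_natCard, h2, hW]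
      have h4 := prod_lb q hq' j
      rw [Fin.prod_univ_eq_prod_range (fun i => Fintype.card F ^ j - Fintype.card F ^ i) j]
      push_cast
      have h5 : ∏ i ∈ range j, ((Fintype.card F ^ j - Fintype.card F ^ i : ℕ) : ℝ) =
          ∏ i ∈ range j, (q ^ j - q ^ i) := by
        refine prod_congr rfl (fun i hi => ?_)
        rw [Nat.cast_sub (Nat.pow_le_pow_right (by omega) (by simp at hi; omega))]
        simp [hqd]
      rw [h5]
      refine le_trans ?_ h4
      have : 0 ≤ q ^ (j * j) * (1 / (2 * q ^ j)) := by positivity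
      linarith)
  rw [cnt_true, Fintype.card_fun, Module.card_eq_pow_finrank (K := F) (V := V)] at h1
  simp only [Fintype.card_fin] at h1
  push_cast at h1
  rw [← hqd, ← pow_mul] at h1
  have h6 : q ^ (finrank F V * j) = q ^ (j * (finrank F V - j)) * q ^ (j * j) := by
    rw [← pow_add]; congr 1
    obtain ⟨d, hd⟩ := Nat.exists_eq_add_of_le hj
    rw [hd]; simp; ring
  rw [h6] at h1
  have : 0 < q ^ (j * j) := by positivity
  nlinarith

/-- subspaces in an interval -/
lemma inter_le (hq : 3 ≤ Fintype.card F) (A B : Submodule F V) (w : ℕ) :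
    cnt (fun W : Submodule F V => A ≤ W ∧ W ≤ B ∧ finrank F W = w) ≤
      2 * (Fintype.card F : ℝ) ^ ((w - finrank F A) * (finrank F B - w)) := by
  by_cases hAB : A ≤ B
  swap
  · rw [cnt_false]; · positivity
    rintro W ⟨h1, h2, -⟩; exact hAB (h1.trans h2)
  by_cases hw : finrank F A ≤ w
  swap
  · rw [cnt_false]; · positivity
    rintro W ⟨h1, -, h3⟩; exact hw (h3 ▸ Submodule.finrank_mono h1)
  set U := B.map A.mkQ with hU
  have : Finite (V ⧸ A) := Finite.of_surjective _ A.mkQ_surjective
  have key : ∀ W : Submodule F V, A ≤ W → finrank F (W.map A.mkQ) + finrank F A = finrank F W := by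
    intro W hW
    have h := LinearMap.finrank_range_add_finrank_ker (A.mkQ.domRestrict W)
    rw [LinearMap.range_domRestrict, LinearMap.ker_domRestrict, Submodule.ker_mkQ,
      (Submodule.comapSubtypeEquivOfLe hW).finrank_eq] at h
    exact h
  have h := gauss_le (F := F) (V := U) hq (w - finrank F A)
  have hUr := key B hAB
  have e : finrank F U - (w - finrank F A) = finrank F B - w := by rw [hU]; omega
  rw [e] at h
  refine le_trans (cnt_inj (fun W => (W.map A.mkQ).comap U.subtype) ?_ ?_) h
  · rintro W ⟨h1, h2, h3⟩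
    rw [(Submodule.comapSubtypeEquivOfLe (Submodule.map_mono h2)).finrank_eq]
    have := key W h1
    omega
  · rintro W W' ⟨h1, h2, -⟩ ⟨h1', h2', -⟩ h
    have h4 := congrArg (Submodule.map U.subtype) h
    rw [Submodule.map_comap_subtype, Submodule.map_comap_subtype,
      inf_eq_right.2 (Submodule.map_mono h2), inf_eq_right.2 (Submodule.map_mono h2')] at h4
    have h5 := congrArg (Submodule.comap A.mkQ) h4
    rwa [Submodule.comap_map_mkQ, Submodule.comap_map_mkQ, sup_eq_right.2 h1,
      sup_eq_right.2 h1'] at h5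

lemma pow_le_rpow {q : ℝ} (hq : 1 ≤ q) {a : ℕ} {x : ℝ} (h : (a : ℝ) ≤ x) : q ^ a ≤ q ^ x := by
  rw [← Real.rpow_natCast]; exact Real.rpow_le_rpow_of_exponent_le hq h

lemma inter_all (hq : 3 ≤ Fintype.card F) (A B : Submodule F V) (m : ℕ)
    (hm : finrank F A + m = finrank F B) :
    cnt (fun W : Submodule F V => A ≤ W ∧ W ≤ B) ≤
      (m + 1) * (2 * (Fintype.card F : ℝ) ^ ((m : ℝ) ^ 2 / 4)) := by
  have hq1 : (1 : ℝ) ≤ Fintype.card F := by exact_mod_cast (by omega : 1 ≤ Fintype.card F)
  refine (cnt_sum (range (m + 1))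
    (fun i W => A ≤ W ∧ W ≤ B ∧ finrank F W = finrank F A + i) ?_).trans ?_
  · rintro W ⟨h1, h2⟩
    have := Submodule.finrank_mono h1
    have := Submodule.finrank_mono h2
    exact ⟨finrank F W - finrank F A, by simp; omega, h1, h2, by omega⟩
  · refine (sum_le_card_nsmul _ _ (2 * (Fintype.card F : ℝ) ^ ((m : ℝ) ^ 2 / 4)) ?_).trans ?_
    · intro i hi
      refine (inter_le hq A B _).trans ?_
      have hi' : i ≤ m := by simp at hi; omega
      have e1 : finrank F A + i - finrank F A = i := by omega
      have e2 : finrank F B - (finrank F A + i) = m - i := by omega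
      rw [e1, e2]
      refine mul_le_mul_of_nonneg_left (pow_le_rpow hq1 ?_) (by norm_num)
      rw [Nat.cast_mul, Nat.cast_sub hi']
      nlinarith [sq_nonneg ((m : ℝ) - 2 * i)]
    · simp

end gauss

end Pool.Agent.H.MP_e84969_co
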