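import Pool.Agent.H.MP_e84969_co.A

set_option linter.unusedSectionVars false

namespace Pool.Agent.H.MP_e84969_co
open Module Finset

variable {F : Type} [Field F] {ι : Type} [Fintype ι] [DecidableEq ι]

def E (F : Type) [Field F] {ι : Type} (S : Set ι) : Submodule F (ι → F) where
  carrier := {x | ∀ i, i ∉ S → x i = 0}
  add_mem' := fun {a b} ha hb i hi => by simp [ha i hi, hb i hi]
  zero_mem' := fun _ _ => rfl
  smul_mem' := fun c x hx i hi => by simp [hx i hi]

lemma mem_E {S : Set ι} {x : ι → F} : x ∈ E F S ↔ ∀ i, i ∉ S → x i = 0 := Iff.rfl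

def Ind (K : Submodule F (ι → F)) (S : Set ι) : Prop :=
  ∀ x ∈ K, (∀ i, i ∉ S → x i = 0) → x = 0

abbrev Mat (F : Type) (N : Finset ι) := {c // c ∉ N} → {i // i ∈ N} → F

def lift (N : Finset ι) (A : Mat F N) : ({i // i ∈ N} → F) →ₗ[F] (ι → F) where
  toFun u c := if h : c ∈ N then u ⟨c, h⟩ else ∑ i, u i * A ⟨c, h⟩ i
  map_add' u v := by
    funext c; by_cases h : c ∈ N <;> simp [h, add_mul, sum_add_distrib]
  map_smul' a u := by
    funext c; by_cases h : c ∈ N <;> simp [h, mul_sum, mul_assoc]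

lemma lift_in {N : Finset ι} (A : Mat F N) (u) (i : {i // i ∈ N}) : lift N A u i = u i := by
  simp [lift, i.2]

lemma lift_out {N : Finset ι} (A : Mat F N) (u) (c : {c // c ∉ N}) :
    lift N A u c = ∑ i, u i * A c i := by
  simp [lift, c.2]

def KK (N : Finset ι) (A : Mat F N) : Submodule F (ι → F) := LinearMap.range (lift N A)

lemma mem_KK {N : Finset ι} {A : Mat F N} {x : ι → F} :
    x ∈ KK N A ↔ ∀ c : {c // c ∉ N}, x c = ∑ i : {i // i ∈ N}, x i * A c i := by
  constructor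
  · rintro ⟨u, rfl⟩ c
    simp only [lift_in, lift_out]
  · intro h
    refine ⟨fun i => x i, ?_⟩
    funext c
    by_cases hc : c ∈ N
    · exact lift_in A _ ⟨c, hc⟩
    · rw [h ⟨c, hc⟩]; exact lift_out A _ ⟨c, hc⟩

lemma lift_inj (N : Finset ι) (A : Mat F N) : Function.Injective (lift N A) := by
  intro u v h; funext i; rw [← lift_in A u i, h, lift_in]

lemma finrank_KK (N : Finset ι) (A : Mat F N) : finrank F (KK N A) = N.card := by
  rw [KK, LinearMap.finrank_range_of_inj (lift_inj N A)]; simp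

lemma KK_inj {N : Finset ι} {A A' : Mat F N} (h : KK N A = KK N A') : A = A' := by
  funext c i
  have h1 : lift N A (Pi.single i 1) ∈ KK N A' := h ▸ ⟨_, rfl⟩
  have h2 := mem_KK.1 h1 c
  simp only [lift_in, lift_out] at h2
  simpa [Pi.single_apply] using h2

lemma KK_ind1 (N : Finset ι) (A : Mat F N) : Ind (KK N A) (↑N : Set ι)ᶜ := by
  rintro _ ⟨u, rfl⟩ h
  have : u = 0 := by
    funext i; rw [← lift_in A u i]; exact h i (by simp)
  simp [this]

lemma KK_ind2 (N : Finset ι) (A : Mat F N) (i : ι) (hi : i ∈ N) :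
    ¬ Ind (KK N A) (insert i (↑N : Set ι)ᶜ) := by
  intro h
  have := h (lift N A (Pi.single ⟨i, hi⟩ 1)) ⟨_, rfl⟩ (by
    intro j hj
    simp only [Set.mem_insert_iff, Set.mem_compl_iff, mem_coe, not_or, not_not] at hj
    rw [show j = ((⟨j, hj.2⟩ : {i // i ∈ N}) : ι) from rfl, lift_in, Pi.single_eq_of_ne]
    simpa using hj.1)
  have h2 := congrFun this i
  have h3 := lift_in A (Pi.single ⟨i, hi⟩ 1) ⟨i, hi⟩
  simp only at h3
  rw [h3] at h2
  simp at h2

lemma std {K : Submodule F (ι → F)} {N : Finset ι} (h1 : Ind K (↑N : Set ι)ᶜ)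
    (h2 : ∀ i ∈ N, ¬ Ind K (insert i (↑N : Set ι)ᶜ)) : ∃ A, K = KK N A := by
  have h3 : ∀ i : {i // i ∈ N}, ∃ x ∈ K, ∀ j : {i // i ∈ N}, x j = if i = j then 1 else 0 := by
    intro i
    have := h2 i i.2
    unfold Ind at this
    push Not at this
    obtain ⟨x, hx, h0, hne⟩ := this
    have hj : ∀ j : {i // i ∈ N}, i ≠ j → x j = 0 := by
      intro j hj
      refine h0 j ?_
      simp only [Set.mem_insert_iff, Set.mem_compl_iff, mem_coe, not_or, not_not]
      exact ⟨fun h => hj (Subtype.ext h.symm), j.2⟩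
    have hi : x i ≠ 0 := by
      intro hi
      refine hne (h1 x hx ?_)
      intro j hjN
      simp only [Set.mem_compl_iff, mem_coe, not_not] at hjN
      by_cases h : i = ⟨j, hjN⟩
      · rw [h] at hi; exact hi
      · exact hj ⟨j, hjN⟩ h
    refine ⟨(x i)⁻¹ • x, K.smul_mem _ hx, fun j => ?_⟩
    by_cases h : i = j
    · subst h; simp [hi]
    · simp [h, hj j h]
  choose x hxK hx using h3
  have key : ∀ u : {i // i ∈ N} → F, lift N (fun c i => x i c) u = ∑ i, u i • x i := by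
    intro u; funext c
    by_cases hc : c ∈ N
    · rw [show c = ((⟨c, hc⟩ : {i // i ∈ N}) : ι) from rfl, lift_in]
      have e : ∀ i, x i c = if i = ⟨c, hc⟩ then 1 else 0 := fun i => hx i ⟨c, hc⟩
      simp [Finset.sum_apply, e]
    · rw [show c = ((⟨c, hc⟩ : {i // i ∉ N}) : ι) from rfl, lift_out]
      simp [Finset.sum_apply]
  have hsub : KK N (fun c i => x i c) ≤ K := by
    rintro _ ⟨u, rfl⟩
    rw [key]; exact K.sum_mem (fun i _ => K.smul_mem _ (hxK i))
  refine ⟨fun c i => x i c, le_antisymm ?_ hsub⟩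
  intro y hy
  have h4 : lift N (fun c i => x i c) (fun i => y i) ∈ KK N (fun c i => x i c) := ⟨_, rfl⟩
  have h5 := h1 _ (K.sub_mem hy (hsub h4)) (by
    intro j hj
    simp only [Set.mem_compl_iff, mem_coe, not_not] at hj
    rw [show j = ((⟨j, hj⟩ : {i // i ∈ N}) : ι) from rfl, Pi.sub_apply, lift_in, sub_self])
  rw [sub_eq_zero] at h5
  rw [h5]; exact h4

lemma Ind.mono {K : Submodule F (ι → F)} {S T : Set ι} (h : Ind K T) (hST : S ⊆ T) : Ind K S :=
  fun x hx h0 => h x hx (fun i hi => h0 i (fun hs => hi (hST hs)))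

lemma exN {K : Submodule F (ι → F)} {L : Set ι} (h : Ind K L) :
    ∃ N : Finset ι, (∀ i ∈ N, i ∉ L) ∧ ∃ A, K = KK N A := by
  classical
  obtain ⟨N, hN, hmin⟩ := exists_min_image
    (univ.filter (fun N : Finset ι => (∀ i ∈ N, i ∉ L) ∧ Ind K (↑N : Set ι)ᶜ)) card
    ⟨univ.filter (fun i => i ∉ L), by
      simp only [mem_filter, mem_univ, true_and, imp_self, implies_true]
      exact h.mono (fun i hi => by simpa using hi)⟩
  simp only [mem_filter, mem_univ, true_and] at hN hmin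
  refine ⟨N, hN.1, std hN.2 (fun i hi hc => ?_)⟩
  have := hmin (N.erase i) ⟨fun j hj => hN.1 j (mem_of_mem_erase hj), hc.mono (fun j hj => by
    simp only [coe_erase, Set.mem_compl_iff, Set.mem_sdiff, mem_coe, Set.mem_singleton_iff,
      not_and, not_not] at hj
    simp only [Set.mem_insert_iff, Set.mem_compl_iff, mem_coe]
    tauto)⟩
  have h2 := card_erase_lt_of_mem hi
  omega

lemma ind_empty (K : Submodule F (ι → F)) : Ind K ∅ :=
  fun x _ h => funext (fun i => h i (by simp))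

def Dep {N : Finset ι} (A : Mat F N) (R : Set {i // i ∈ N}) (Q : Set {c // c ∉ N}) : Prop :=
  ∃ u : {i // i ∈ N} → F, u ≠ 0 ∧ (∀ i, i ∉ R → u i = 0) ∧ ∀ c ∈ Q, ∑ i, u i * A c i = 0

lemma dep_iff {N : Finset ι} (A : Mat F N) (R : Set {i // i ∈ N}) (Q : Set {c // c ∉ N}) :
    Dep A R Q ↔ ¬ Ind (KK N A) {x | if h : x ∈ N then ⟨x, h⟩ ∈ R else ⟨x, h⟩ ∉ Q} := by
  unfold Ind Dep
  push Not
  constructor
  · rintro ⟨u, hu, hR, hQ⟩
    refine ⟨lift N A u, ⟨u, rfl⟩, fun j hj => ?_, fun h => hu (lift_inj N A (by simp [h]))⟩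
    by_cases hc : j ∈ N
    · rw [show j = ((⟨j, hc⟩ : {i // i ∈ N}) : ι) from rfl, lift_in]
      exact hR _ (by simpa [hc] using hj)
    · rw [show j = ((⟨j, hc⟩ : {i // i ∉ N}) : ι) from rfl, lift_out]
      exact hQ _ (by simpa [hc] using hj)
  · rintro ⟨_, ⟨u, rfl⟩, h0, hne⟩
    refine ⟨u, fun h => hne (by simp [h]), fun i hi => ?_, fun c hc => ?_⟩
    · rw [← lift_in A u i]; exact h0 i (by simpa [i.2] using hi)
    · rw [← lift_out A u c]; exact h0 c (by simpa [c.2] using hc)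

lemma finrank_E (S : Finset ι) : finrank F (E F (↑S : Set ι)) = S.card := by
  rw [← finrank_KK S (fun _ _ => (0 : F))]
  congr 2
  all_goals
    have : E F (↑S : Set ι) = KK S (fun _ _ => (0 : F)) := by
      ext x; rw [mem_KK, mem_E]; simp
    first | exact this | rw [this]

variable [Fintype F]

lemma card_Mat (N : Finset ι) :
    (Fintype.card (Mat F N) : ℝ) = (Fintype.card F : ℝ) ^ (N.card * (Fintype.card ι - N.card)) := by
  simp only [Fintype.card_fun, Fintype.card_coe, Fintype.card_subtype_compl]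
  push_cast
  rw [← pow_mul]

lemma gauss_ge (j : ℕ) (hj : j ≤ Fintype.card ι) :
    (Fintype.card F : ℝ) ^ (j * (Fintype.card ι - j)) ≤
      cnt (fun W : Submodule F (ι → F) => finrank F W = j) := by
  obtain ⟨N, -, hN⟩ := exists_subset_card_eq (s := (univ : Finset ι)) (n := j) (by simpa using hj)
  subst hN
  rw [← card_Mat, ← cnt_true]
  exact cnt_inj (KK N) (fun A _ => finrank_KK N A) (fun _ _ _ _ h => KK_inj h)

lemma total_ge : (Fintype.card F : ℝ) ^ (((Fintype.card ι : ℝ) ^ 2 - 1) / 4) ≤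
    cnt (fun _ : Submodule F (ι → F) => True) := by
  have hq1 : (1 : ℝ) ≤ Fintype.card F := by exact_mod_cast Fintype.card_pos
  refine le_trans ?_ ((gauss_ge (F := F) (Fintype.card ι / 2) (Nat.div_le_self _ _)).trans
    (cnt_mono (fun _ _ => trivial)))
  rw [← Real.rpow_natCast (Fintype.card F : ℝ)]
  refine Real.rpow_le_rpow_of_exponent_le hq1 ?_
  generalize Fintype.card ι = n
  obtain ⟨k, rfl | rfl⟩ := Nat.even_or_odd' n
  · rw [show 2 * k / 2 = k by omega, show 2 * k - k = k by omega]; push_cast; nlinarith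
  · rw [show (2 * k + 1) / 2 = k by omega, show 2 * k + 1 - k = k + 1 by omega]; push_cast; nlinarith

end Pool.Agent.H.MP_e84969_co
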