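import Pool.Agent.H.MP_e84969_co.B

set_option linter.unusedSectionVars false

namespace Pool.Agent.H.MP_e84969_co
open Module Finset

variable {F : Type} [Field F] {ρ κ : Type} [Fintype ρ] [DecidableEq ρ]

def DepG (A : κ → ρ → F) (R : Set ρ) (Q : Set κ) : Prop :=
  ∃ u : ρ → F, u ≠ 0 ∧ (∀ i, i ∉ R → u i = 0) ∧ ∀ c ∈ Q, ∑ i, u i * A c i = 0

def Rich (A : κ → ρ → F) : Prop :=
  ∀ i j k : ρ, i ≠ j → i ≠ k → j ≠ k → ∀ x y z : F, ∃ c, A c i = x ∧ A c j = y ∧ A c k = z

lemma sum_supp (s : Finset ρ) (u f : ρ → F) (h : ∀ i, i ∉ s → u i = 0) :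
    ∑ i, u i * f i = ∑ i ∈ s, u i * f i :=
  (sum_subset (subset_univ s) (fun i _ hi => by simp [h i hi])).symm

lemma z1 (A : κ → ρ → F) (i : ρ) (c : κ) : DepG A {i} {c} ↔ A c i = 0 := by
  constructor
  · rintro ⟨u, hu, h0, h1⟩
    have h2 := h1 c rfl
    rw [sum_supp {i} u _ (fun j hj => h0 j (by simpa using hj)), sum_singleton] at h2
    rcases mul_eq_zero.1 h2 with h | h
    · exfalso; apply hu; funext j
      by_cases hj : j = i
      · rw [hj]; exact h
      · exact h0 j hj
    · exact h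
  · intro h
    refine ⟨Pi.single i 1, by simp, fun j hj => Pi.single_eq_of_ne hj _, ?_⟩
    rintro _ rfl
    simp [Pi.single_apply, h]

lemma z2 {A A' : κ → ρ → F} (H : ∀ R Q, DepG A R Q → DepG A' R Q) {i j : ρ} {c d : κ}
    (hb : A c j ≠ 0) (h : A c i * A d j = A d i * A c j) :
    A' c i * A' d j = A' d i * A' c j := by
  by_cases hij : i = j
  · subst hij; ring
  have hji : j ≠ i := fun h => hij h.symm
  obtain ⟨u, hu, h0, h1⟩ := H {i, j} {c, d} ⟨Pi.single i (A c j) + Pi.single j (-A c i), by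
      intro h; have := congrFun h i; simp [hij, hb] at this, by
      intro k hk
      simp only [Set.mem_insert_iff, Set.mem_singleton_iff, not_or] at hk
      simp [hk.1, hk.2], by
      intro e he
      simp only [Pi.add_apply, add_mul, sum_add_distrib, Pi.single_apply, ite_mul, zero_mul,
        sum_ite_eq', mem_univ, if_true]
      rcases he with rfl | rfl
      · ring
      · linear_combination -h⟩
  have e1 := h1 c (by simp)
  have e2 := h1 d (by simp)
  rw [sum_supp {i, j} u _ (fun k hk => h0 k (by simpa using hk)), sum_pair hij] at e1 e2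
  have : u i ≠ 0 ∨ u j ≠ 0 := by
    by_contra hh
    push Not at hh
    apply hu; funext k
    by_cases hk : k ∈ ({i, j} : Set ρ)
    · rcases hk with rfl | rfl
      · exact hh.1
      · exact hh.2
    · exact h0 k hk
  rcases this with h | h
  · apply mul_left_cancel₀ h; linear_combination A' d j * e1 - A' c j * e2
  · apply mul_left_cancel₀ h; linear_combination A' c i * e2 - A' d i * e1

lemma z3 {A A' : κ → ρ → F} (H : ∀ R Q, DepG A R Q → DepG A' R Q) {i j k : ρ} {c d e : κ}
    (hij : i ≠ j) (hik : i ≠ k) (hjk : j ≠ k) {x y : F}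
    (hc : A c i = x ∧ A c j = 0 ∧ A c k = 1) (hd : A d i = y ∧ A d j = 1 ∧ A d k = 0)
    (he : A e i = x + y ∧ A e j = 1 ∧ A e k = 1)
    (h1 : A' c j = 0) (h2 : A' d k = 0) (h3 : A' c k ≠ 0) (h4 : A' d j ≠ 0) :
    A' e i * A' c k * A' d j = A' c i * A' e k * A' d j + A' d i * A' e j * A' c k := by
  obtain ⟨u, hu, h0, hs⟩ := H {i, j, k} {c, d, e}
    ⟨Pi.single i 1 + Pi.single j (-y) + Pi.single k (-x), by
      intro h; have := congrFun h i; simp [hij, hik] at this, by
      intro l hl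
      simp only [Set.mem_insert_iff, Set.mem_singleton_iff, not_or] at hl
      simp [hl.1, hl.2.1, hl.2.2], by
      intro f hf
      simp only [Pi.add_apply, add_mul, sum_add_distrib, Pi.single_apply, ite_mul, zero_mul,
        sum_ite_eq', mem_univ, if_true]
      rcases hf with rfl | rfl | rfl
      · rw [hc.1, hc.2.1, hc.2.2]; ring
      · rw [hd.1, hd.2.1, hd.2.2]; ring
      · rw [he.1, he.2.1, he.2.2]; ring⟩
  have e1 := hs c (by simp)
  have e2 := hs d (by simp)
  have e3 := hs e (by simp)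
  rw [sum_supp {i, j, k} u _ (fun l hl => h0 l (by simpa using hl)),
    sum_insert (by simp [hij, hik]), sum_pair hjk] at e1 e2 e3
  rw [h1] at e1
  rw [h2] at e2
  have hi : u i ≠ 0 := by
    intro hi
    rw [hi] at e1 e2
    have a1 : u k = 0 := by
      have : u k * A' c k = 0 := by linear_combination e1
      exact (mul_eq_zero.1 this).resolve_right h3
    have a2 : u j = 0 := by
      have : u j * A' d j = 0 := by linear_combination e2
      exact (mul_eq_zero.1 this).resolve_right h4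
    apply hu; funext l
    by_cases hl : l ∈ ({i, j, k} : Set ρ)
    · rcases hl with rfl | rfl | rfl <;> assumption
    · exact h0 l hl
  apply mul_left_cancel₀ hi
  linear_combination A' c k * A' d j * e3 - A' e k * A' d j * e1 - A' e j * A' c k * e2

lemma third (h : 3 ≤ Fintype.card ρ) (i j : ρ) : ∃ k, i ≠ k ∧ j ≠ k := by
  by_contra hh
  push Not at hh
  have : (univ : Finset ρ) ⊆ {i, j} := by
    intro k _
    by_cases h1 : i = k
    · simp [h1]
    · simp [hh k h1]
  have h2 := card_le_card this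
  have h3 : ({i, j} : Finset ρ).card ≤ 2 := card_le_two
  rw [card_univ] at h2
  omega

theorem rigid [Finite F] {A A' : κ → ρ → F} (H : ∀ R Q, DepG A R Q ↔ DepG A' R Q) (hR : Rich A)
    (h3 : 3 ≤ Fintype.card ρ) :
    ∃ (σ : F ≃+* F) (δ : ρ → F) (ε : κ → F), (∀ i, δ i ≠ 0) ∧ (∀ c, ε c ≠ 0) ∧
      ∀ c i, A' c i = δ i * ε c * σ (A c i) := by
  classical
  have H1 : ∀ R Q, DepG A R Q → DepG A' R Q := fun R Q => (H R Q).1
  have hz : ∀ c i, A c i = 0 ↔ A' c i = 0 := fun c i => by rw [← z1, ← z1, H]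
  have hz' : ∀ c i, A c i ≠ 0 → A' c i ≠ 0 := fun c i h h' => h ((hz c i).2 h')
  obtain ⟨φ, hφ⟩ : ∃ φ : ρ → ρ → F → F, ∀ i j c x, A c j ≠ 0 → A c i = x * A c j →
      A' c i = φ i j x * A' c j := by
    refine ⟨fun i j x => if h : ∃ c, A c j ≠ 0 ∧ A c i = x * A c j then
      A' h.choose i / A' h.choose j else 0, fun i j c x h1 h2 => ?_⟩
    have h : ∃ c, A c j ≠ 0 ∧ A c i = x * A c j := ⟨c, h1, h2⟩
    simp only [dif_pos h]
    obtain ⟨g1, g2⟩ := h.choose_spec
    have := z2 H1 (i := i) (j := j) (c := c) (d := h.choose) h1 (by rw [h2, g2]; ring)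
    have g3 := hz' _ _ g1
    field_simp
    linear_combination this
  have hmul : ∀ i j k, i ≠ j → i ≠ k → j ≠ k → ∀ x y, y ≠ 0 →
      φ i k (x * y) = φ i j x * φ j k y := by
    intro i j k hij hik hjk x y hy
    obtain ⟨c, c1, c2, c3⟩ := hR i j k hij hik hjk (x * y) y 1
    have a1 := hφ i k c (x * y) (by simp [c3]) (by simp [c1, c3])
    have a2 := hφ i j c x (by simp [c2, hy]) (by simp [c1, c2])
    have a3 := hφ j k c y (by simp [c3]) (by simp [c2, c3])
    have a4 := hz' c k (by simp [c3])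
    apply mul_right_cancel₀ a4
    rw [← a1, a2, a3]; ring
  have h0 : ∀ i j, i ≠ j → φ i j 0 = 0 := by
    intro i j hij
    obtain ⟨k, hik, hjk⟩ := third h3 i j
    obtain ⟨c, c1, c2, -⟩ := hR i j k hij hik hjk 0 1 1
    have a1 := hφ i j c 0 (by simp [c2]) (by simp [c1])
    rw [(hz c i).1 c1] at a1
    exact (mul_eq_zero.1 a1.symm).resolve_right (hz' c j (by simp [c2]))
  have h1 : ∀ i j, i ≠ j → φ i j 1 ≠ 0 := by
    intro i j hij h
    obtain ⟨k, hik, hjk⟩ := third h3 i j
    obtain ⟨c, c1, c2, -⟩ := hR i j k hij hik hjk 1 1 1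
    have a1 := hφ i j c 1 (by simp [c2]) (by simp [c1, c2])
    rw [h, zero_mul] at a1
    exact hz' c i (by simp [c1]) a1
  have hinv : ∀ i j, i ≠ j → φ i j 1 * φ j i 1 = 1 := by
    intro i j hij
    obtain ⟨k, hik, hjk⟩ := third h3 i j
    obtain ⟨c, c1, c2, -⟩ := hR i j k hij hik hjk 1 1 1
    have a1 := hφ i j c 1 (by simp [c2]) (by simp [c1, c2])
    have a2 := hφ j i c 1 (by simp [c1]) (by simp [c1, c2])
    apply mul_right_cancel₀ (hz' c i (by simp [c1]))
    rw [mul_assoc, ← a2, ← a1, one_mul]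
  have hadd : ∀ i j k, i ≠ j → i ≠ k → j ≠ k → ∀ x y,
      φ i k (x + y) = φ i k x + φ j k 1 * φ i j y := by
    intro i j k hij hik hjk x y
    obtain ⟨c, hc⟩ := hR i j k hij hik hjk x 0 1
    obtain ⟨d, hd⟩ := hR i j k hij hik hjk y 1 0
    obtain ⟨e, he⟩ := hR i j k hij hik hjk (x + y) 1 1
    have b3 := hz' c k (by simp [hc.2.2])
    have b4 := hz' d j (by simp [hd.2.1])
    have b5 := hz' e k (by simp [he.2.2])
    have := z3 H1 hij hik hjk hc hd he ((hz _ _).1 hc.2.1) ((hz _ _).1 hd.2.2) b3 b4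
    rw [hφ i k e (x + y) (by simp [he.2.2]) (by simp [he.1, he.2.2]),
      hφ i k c x (by simp [hc.2.2]) (by simp [hc.1, hc.2.2]),
      hφ i j d y (by simp [hd.2.1]) (by simp [hd.1, hd.2.1]),
      hφ j k e 1 (by simp [he.2.2]) (by simp [he.2.1, he.2.2])] at this
    apply mul_right_cancel₀ (mul_ne_zero (mul_ne_zero b5 b3) b4)
    linear_combination this
  set ψ : ρ → ρ → F → F := fun i j x => φ i j x / φ i j 1 with hψ
  have sameL : ∀ a b c, a ≠ b → a ≠ c → ∀ x, ψ a b x = ψ a c x := by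
    intro a b c hab hac x
    by_cases hbc : b = c
    · rw [hbc]
    have e1 := hmul a b c hab hac hbc x 1 one_ne_zero
    have e2 := hmul a b c hab hac hbc 1 1 one_ne_zero
    rw [mul_one] at e1 e2
    have := h1 a b hab
    have := h1 b c hbc
    simp only [hψ]; rw [e1, e2]; field_simp
  have sameR : ∀ a b c, a ≠ c → b ≠ c → ∀ x, ψ a c x = ψ b c x := by
    intro a b c hac hbc x
    by_cases hab : a = b
    · rw [hab]
    by_cases hx : x = 0
    · simp only [hψ]; rw [hx, h0 a c hac, h0 b c hbc]; simp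
    have e1 := hmul a b c hab hac hbc 1 x hx
    have e2 := hmul a b c hab hac hbc 1 1 one_ne_zero
    rw [one_mul] at e1 e2
    have := h1 a b hab
    have := h1 b c hbc
    simp only [hψ]; rw [e1, e2]; field_simp
  have : Nonempty ρ := Fintype.card_pos_iff.1 (by omega)
  obtain ⟨r0⟩ := this
  obtain ⟨r1, h01, -⟩ := third h3 r0 r0
  obtain ⟨r2, h02, h12⟩ := third h3 r0 r1
  have same : ∀ i j, i ≠ j → ∀ x, φ i j x = φ i j 1 * ψ r1 r0 x := by
    intro i j hij x
    have : ψ i j x = ψ r1 r0 x := by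
      by_cases hi : i = r0
      · obtain ⟨k, hk1, hk2⟩ := third h3 r0 j
        rw [sameR i k j hij hk2.symm, sameL k j r0 hk2.symm hk1.symm,
          sameR k r1 r0 hk1.symm h01.symm]
      · rw [sameL i j r0 hij hi, sameR i r1 r0 hi h01.symm]
    rw [← this]
    have := h1 i j hij
    simp only [hψ]; field_simp
  have e12 := hmul r1 r2 r0 h12 h01.symm h02.symm 1 1 one_ne_zero
  rw [mul_one] at e12
  let s : F →+* F :=
    { toFun := ψ r1 r0
      map_one' := by simp only [hψ]; exact div_self (h1 _ _ h01.symm)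
      map_zero' := by simp only [hψ]; rw [h0 _ _ h01.symm, zero_div]
      map_mul' := fun x y => by
        by_cases hy : y = 0
        · simp only [hψ]; rw [hy, mul_zero, h0 _ _ h01.symm, zero_div, mul_zero]
        have e := hmul r1 r2 r0 h12 h01.symm h02.symm x y hy
        rw [same r1 r0 h01.symm, same r1 r2 h12, same r2 r0 h02.symm] at e
        apply mul_left_cancel₀ (h1 _ _ h01.symm)
        rw [e, e12]; ring
      map_add' := fun x y => by
        have e := hadd r1 r2 r0 h12 h01.symm h02.symm x y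
        rw [same r1 r0 h01.symm, same r1 r0 h01.symm x, same r1 r2 h12 y] at e
        apply mul_left_cancel₀ (h1 _ _ h01.symm)
        rw [e, e12]; ring }
  have hs : Function.Bijective s := (Finite.injective_iff_bijective).1 s.injective
  let σ : F ≃+* F := RingEquiv.ofBijective s hs
  have hσ : ∀ x, σ x = ψ r1 r0 x := fun x => rfl
  set δ : ρ → F := fun i => if i = r0 then 1 else φ i r0 1 with hδ
  have hδ0 : ∀ i, δ i ≠ 0 := by
    intro i; simp only [hδ]; split_ifs with h
    · exact one_ne_zero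
    · exact h1 _ _ h
  have hcoc : ∀ i j, i ≠ j → φ i j 1 * δ j = δ i := by
    intro i j hij
    simp only [hδ]
    by_cases hi : i = r0
    · have hj : j ≠ r0 := fun h => hij (hi.trans h.symm)
      rw [if_pos hi, if_neg hj, hi]; exact hinv _ _ hj.symm
    · by_cases hj : j = r0
      · rw [if_pos hj, if_neg hi, hj, mul_one]
      · rw [if_neg hi, if_neg hj, ← hmul i j r0 hij hi hj 1 1 one_ne_zero, mul_one]
  refine ⟨σ, δ, fun c => if h : ∃ i, A c i ≠ 0 then
    A' c h.choose / (δ h.choose * σ (A c h.choose)) else 1, hδ0, fun c => ?_, fun c i => ?_⟩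
  · beta_reduce
    split_ifs with h
    · have g := h.choose_spec
      exact div_ne_zero (hz' _ _ g) (mul_ne_zero (hδ0 _) (by simpa using g))
    · exact one_ne_zero
  · beta_reduce
    split_ifs with h
    · have g := h.choose_spec
      generalize h.choose = j at g ⊢
      have g1 : σ (A c j) ≠ 0 := by simpa using g
      have g2 := hδ0 j
      by_cases hij : i = j
      · rw [hij]; field_simp
      · rw [hφ i j c (A c i / A c j) g (by field_simp), same i j hij, ← hσ, ← hcoc i j hij,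
          map_div₀]
        field_simp
    · push Not at h
      rw [(hz c i).1 (h i), h i]; simp

section count
variable [Fintype F] [Fintype κ] [DecidableEq κ]

lemma col_count {i j k : ρ} (hij : i ≠ j) (hik : i ≠ k) (hjk : j ≠ k) (x y z : F) :
    cnt (fun v : ρ → F => ¬ (v i = x ∧ v j = y ∧ v k = z)) ≤
      (Fintype.card F : ℝ) ^ Fintype.card ρ * (1 - 1 / (Fintype.card F : ℝ) ^ 3) := by
  classical
  have hq : (0 : ℝ) < Fintype.card F := by exact_mod_cast Fintype.card_pos
  set m := cnt (fun v : ρ → F => v i = x ∧ v j = y ∧ v k = z) with hm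
  have h1 : cnt (fun _ : ρ → F => True) ≤ cnt (fun _ : F × F × F => True) * m := by
    refine cnt_union _ (fun (b : F × F × F) (v : ρ → F) => v i = b.1 ∧ v j = b.2.1 ∧ v k = b.2.2) m
      (fun v _ => ⟨(v i, v j, v k), trivial, rfl, rfl, rfl⟩) ?_
    rintro ⟨a, b, c⟩ -
    refine cnt_inj (fun v => v + (Pi.single i (x - a) + Pi.single j (y - b) + Pi.single k (z - c)))
      ?_ (fun _ _ _ _ h => add_right_cancel h)
    rintro v ⟨h1, h2, h3⟩
    simp only at h1 h2 h3
    simp [hij, hik, hjk, hij.symm, hik.symm, hjk.symm, h1, h2, h3]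
  have h2 : cnt (fun v : ρ → F => ¬ (v i = x ∧ v j = y ∧ v k = z)) + m =
      cnt (fun _ : ρ → F => True) := by
    rw [hm, cnt_eq_card, cnt_eq_card, cnt_true, add_comm]
    exact_mod_cast (card_filter_add_card_filter_not _).trans card_univ
  rw [cnt_true] at h2
  rw [cnt_true, cnt_true] at h1
  simp only [Fintype.card_fun, Fintype.card_prod] at h1 h2
  push_cast at h1 h2
  have h3 : (Fintype.card F : ℝ) ^ Fintype.card ρ / (Fintype.card F : ℝ) ^ 3 ≤ m := by
    rw [div_le_iff₀ (by positivity)]; linarith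
  rw [mul_sub, mul_one, mul_one_div]
  linarith

lemma cnt_pi {α β : Type} [Fintype α] [DecidableEq α] [Finite β] (p : α → β → Prop) (c : ℝ)
    (hc : ∀ a, cnt (p a) ≤ c) : cnt (fun f : α → β => ∀ a, p a (f a)) ≤ c ^ Fintype.card α := by
  classical
  have := Fintype.ofFinite β
  have h : cnt (fun f : α → β => ∀ a, p a (f a)) = ∏ a, cnt (p a) := by
    simp only [cnt_eq_card]
    rw [← Nat.cast_prod, ← Fintype.card_piFinset]
    congr 2; ext f; simp
  rw [h, ← card_univ, ← prod_const]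
  exact prod_le_prod (fun a _ => cnt_nonneg _) (fun a _ => hc a)

lemma poor_count : cnt (fun A : κ → ρ → F => ¬ Rich A) ≤
    ((Fintype.card ρ : ℝ) ^ 3 * (Fintype.card F : ℝ) ^ 3) *
      ((Fintype.card F : ℝ) ^ Fintype.card ρ * (1 - 1 / (Fintype.card F : ℝ) ^ 3)) ^
        Fintype.card κ := by
  have hq : (1 : ℝ) ≤ Fintype.card F := by exact_mod_cast Fintype.card_pos
  refine (cnt_union (fun b : (ρ × ρ × ρ) × (F × F × F) =>
      b.1.1 ≠ b.1.2.1 ∧ b.1.1 ≠ b.1.2.2 ∧ b.1.2.1 ≠ b.1.2.2)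
    (fun b A => ∀ c, ¬ (A c b.1.1 = b.2.1 ∧ A c b.1.2.1 = b.2.2.1 ∧ A c b.1.2.2 = b.2.2.2))
    (((Fintype.card F : ℝ) ^ Fintype.card ρ * (1 - 1 / (Fintype.card F : ℝ) ^ 3)) ^
        Fintype.card κ) ?_ ?_).trans ?_
  · intro A hA
    unfold Rich at hA
    push Not at hA
    obtain ⟨i, j, k, h1, h2, h3, x, y, z, h⟩ := hA
    exact ⟨((i, j, k), (x, y, z)), ⟨h1, h2, h3⟩, fun c hc => h c hc.1 hc.2.1 hc.2.2⟩
  · rintro ⟨⟨i, j, k⟩, x, y, z⟩ ⟨h1, h2, h3⟩
    exact cnt_pi (fun (_ : κ) (v : ρ → F) => ¬ (v i = x ∧ v j = y ∧ v k = z)) _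
      (fun _ => col_count h1 h2 h3 x y z)
  · refine mul_le_mul_of_nonneg_right ((cnt_le_card _).trans ?_) (pow_nonneg (mul_nonneg
      (by positivity) ?_) _)
    · simp only [Fintype.card_prod]; push_cast; exact le_of_eq (by ring)
    · rw [sub_nonneg, div_le_one (by positivity)]; exact one_le_pow₀ hq

end count

end Pool.Agent.H.MP_e84969_co
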