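import Pool.Agent.H.MP_e84969_co.C

set_option linter.unusedSectionVars false

namespace Pool.Agent.H.MP_e84969_co
open Module Finset

@[ext] structure G (F : Type) [Field F] (ι : Type) where
  p : Equiv.Perm ι
  d : ι → Fˣ
  s : F ≃+* F

variable {F : Type} [Field F] {ι : Type} [Fintype ι] [DecidableEq ι]

instance : Mul (G F ι) :=
  ⟨fun g h => ⟨g.p * h.p, fun i => g.d (h.p i) * Units.map g.s.toMonoidHom (h.d i), h.s.trans g.s⟩⟩
instance : One (G F ι) := ⟨⟨1, 1, RingEquiv.refl F⟩⟩
instance : Inv (G F ι) :=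
  ⟨fun g => ⟨g.p⁻¹, fun i => Units.map g.s.symm.toMonoidHom (g.d (g.p⁻¹ i))⁻¹, g.s.symm⟩⟩

lemma mul_p (g h : G F ι) : (g * h).p = g.p * h.p := rfl
lemma mul_d (g h : G F ι) (i) : ((g * h).d i : F) = g.d (h.p i) * g.s (h.d i) := rfl
lemma mul_s (g h : G F ι) (x) : (g * h).s x = g.s (h.s x) := rfl
lemma one_p : (1 : G F ι).p = 1 := rfl
lemma one_d (i) : ((1 : G F ι).d i : F) = 1 := rfl
lemma one_s (x) : (1 : G F ι).s x = x := rfl
lemma inv_p (g : G F ι) : (g⁻¹).p = g.p⁻¹ := rfl
lemma inv_d (g : G F ι) (i) : ((g⁻¹).d i : F) = g.s.symm ((g.d (g.p⁻¹ i))⁻¹ : Fˣ) := rfl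
lemma inv_s (g : G F ι) (x) : (g⁻¹).s x = g.s.symm x := rfl

instance : Group (G F ι) := Group.ofLeftAxioms
  (fun a b c => by
    ext i
    · simp [mul_p]
    · simp [mul_d, mul_p, mul_s, mul_assoc]
    · simp [mul_s])
  (fun a => by
    ext i
    · simp [mul_p, one_p]
    · simp [mul_d, one_d, one_s]
    · simp [mul_s, one_s])
  (fun a => by
    ext i
    · simp [mul_p, one_p, inv_p]
    · simp [mul_d, one_d, inv_d, inv_s]
    · simp [mul_s, one_s, inv_s])

def act (g : G F ι) (x : ι → F) : ι → F := fun j => g.d (g.p.symm j) * g.s (x (g.p.symm j))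

lemma act_p (g : G F ι) (x : ι → F) (i : ι) : act g x (g.p i) = g.d i * g.s (x i) := by
  simp [act]

lemma act_one (x : ι → F) : act (1 : G F ι) x = x := by
  funext j; simp [act, one_p, one_d, one_s, Equiv.Perm.one_def]

lemma act_mul (g h : G F ι) (x : ι → F) : act (g * h) x = act g (act h x) := by
  funext j
  obtain ⟨i, rfl⟩ := (g * h).p.surjective j
  rw [act_p, mul_p, Equiv.Perm.mul_apply, act_p, act_p, mul_d, mul_s, map_mul, mul_assoc]

lemma act_add (g : G F ι) (x y : ι → F) : act g (x + y) = act g x + act g y := by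
  funext j; simp [act, mul_add]

lemma act_zero (g : G F ι) : act g (0 : ι → F) = 0 := by
  funext j; simp [act]

lemma act_smul (g : G F ι) (c : F) (x : ι → F) : act g (c • x) = g.s c • act g x := by
  funext j; simp [act]; ring

lemma act_inj (g : G F ι) : Function.Injective (act g) := by
  intro x y h
  have := congrArg (act g⁻¹) h
  rwa [← act_mul, ← act_mul, inv_mul_cancel, act_one, act_one] at this

instance : SMul (G F ι) (Submodule F (ι → F)) :=
  ⟨fun g K =>
    { carrier := act g '' K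
      add_mem' := by
        rintro _ _ ⟨x, hx, rfl⟩ ⟨y, hy, rfl⟩
        exact ⟨x + y, K.add_mem hx hy, act_add g x y⟩
      zero_mem' := ⟨0, K.zero_mem, act_zero g⟩
      smul_mem' := by
        rintro c _ ⟨x, hx, rfl⟩
        exact ⟨g.s.symm c • x, K.smul_mem _ hx, by rw [act_smul]; simp⟩ }⟩

lemma mem_smul {g : G F ι} {K : Submodule F (ι → F)} {y} :
    y ∈ g • K ↔ ∃ x ∈ K, act g x = y := Iff.rfl

instance : MulAction (G F ι) (Submodule F (ι → F)) where
  one_smul K := by ext y; simp [mem_smul, act_one]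
  mul_smul g h K := by ext y; simp [mem_smul, act_mul]

lemma act_mem {g : G F ι} {K : Submodule F (ι → F)} {x} : act g x ∈ g • K ↔ x ∈ K :=
  ⟨fun ⟨_, hy, h⟩ => act_inj g h ▸ hy, fun h => ⟨x, h, rfl⟩⟩

lemma act_eq_zero {g : G F ι} {x : ι → F} {i : ι} : act g x (g.p i) = 0 ↔ x i = 0 := by
  simp [act_p]

lemma ind_smul (g : G F ι) (K : Submodule F (ι → F)) (S : Set ι) :
    Ind (g • K) (g.p '' S) ↔ Ind K S := by
  constructor
  · intro h x hx h0
    apply act_inj g
    rw [act_zero]
    refine h _ (act_mem.2 hx) (fun j hj => ?_)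
    obtain ⟨i, rfl⟩ := g.p.surjective j
    exact act_eq_zero.2 (h0 i (fun hi => hj ⟨i, hi, rfl⟩))
  · rintro h _ ⟨x, hx, rfl⟩ h0
    rw [h x hx (fun i hi => act_eq_zero.1 (h0 _ (by simpa using hi))), act_zero]

lemma smul_inf (g : G F ι) (K L : Submodule F (ι → F)) : g • (K ⊓ L) = g • K ⊓ g • L := by
  ext y
  constructor
  · rintro ⟨x, hx, rfl⟩; exact ⟨act_mem.2 hx.1, act_mem.2 hx.2⟩
  · rintro ⟨⟨x, hx, rfl⟩, h⟩; exact act_mem.2 ⟨hx, act_mem.1 h⟩

lemma smul_E (g : G F ι) (S : Set ι) : g • E F S = E F (g.p '' S) := by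
  ext y
  obtain ⟨x, rfl⟩ : ∃ x, act g x = y := ⟨act g⁻¹ y, by rw [← act_mul, mul_inv_cancel, act_one]⟩
  rw [act_mem, mem_E, mem_E]
  constructor
  · intro h j hj
    obtain ⟨i, rfl⟩ := g.p.surjective j
    exact act_eq_zero.2 (h i (fun hi => hj ⟨i, hi, rfl⟩))
  · intro h i hi
    exact act_eq_zero.1 (h _ (by simpa using hi))

lemma exS (p : Equiv.Perm ι) (W : Finset ι) :
    ∃ S ⊆ W, W.card ≤ 3 * S.card ∧ ∀ i ∈ S, p i ∈ S → p i = i := by
  classical
  obtain ⟨S, hS, hmax⟩ := exists_max_image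
    (W.powerset.filter (fun S : Finset ι => ∀ i ∈ S, p i ∈ S → p i = i)) card ⟨∅, by simp⟩
  simp only [mem_filter, mem_powerset] at hS hmax
  refine ⟨S, hS.1, ?_, hS.2⟩
  have : W ⊆ S ∪ S.image p ∪ S.image p.symm := by
    intro w hw
    by_contra hn
    simp only [mem_union, mem_image, not_or, not_exists, not_and] at hn
    have := hmax (insert w S) ⟨insert_subset hw hS.1, fun i hi hp => by
      rcases mem_insert.1 hi with rfl | hi'
      · rcases mem_insert.1 hp with h | h
        · exact h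
        · exact absurd (by simp) (hn.2 _ h)
      · rcases mem_insert.1 hp with h | h
        · exact absurd h (hn.1.2 _ hi')
        · exact hS.2 i hi' h⟩
    rw [card_insert_of_notMem hn.1.1] at this
    omega
  have h1 := card_le_card this
  have h2 := card_union_le (S ∪ S.image p) (S.image p.symm)
  have h3 := card_union_le S (S.image p)
  have h4 := card_image_le (s := S) (f := p)
  have h5 := card_image_le (s := S) (f := p.symm)
  omega

variable [Fintype F]

lemma finrank_smul (g : G F ι) (K : Submodule F (ι → F)) : finrank F ↥(g • K) = finrank F K := by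
  classical
  have e : K ≃ ↥(g • K) := Equiv.Set.image (act g) (K : Set (ι → F)) (act_inj g)
  have h : Fintype.card ↥(g • K) = Fintype.card K := (Fintype.card_congr e).symm
  rw [Module.card_eq_pow_finrank (K := F), Module.card_eq_pow_finrank (K := F) (V := K)] at h
  exact Nat.pow_right_injective (Fintype.one_lt_card) h

instance : Finite (F ≃+* F) :=
  Finite.of_injective (fun s : F ≃+* F => (s : F → F)) DFunLike.coe_injective

def Geq : G F ι ≃ Equiv.Perm ι × (ι → Fˣ) × (F ≃+* F) where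
  toFun g := (g.p, g.d, g.s)
  invFun t := ⟨t.1, t.2.1, t.2.2⟩
  left_inv _ := rfl
  right_inv _ := rfl

instance : Finite (G F ι) := Finite.of_equiv _ Geq.symm

lemma card_G : Nat.card (G F ι) = (Fintype.card ι).factorial *
    ((Fintype.card F - 1) ^ Fintype.card ι * Nat.card (F ≃+* F)) := by
  classical
  rw [Nat.card_congr Geq, Nat.card_prod, Nat.card_prod, Nat.card_eq_fintype_card,
    Nat.card_eq_fintype_card (α := ι → Fˣ), Fintype.card_perm, Fintype.card_fun, Fintype.card_units]

lemma card_aut {p k : ℕ} (hp : p.Prime) (h : Fintype.card F = p ^ k) :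
    Nat.card (F ≃+* F) = k := by
  have := Fact.mk hp
  have hc : CharP F p := by
    obtain ⟨r, hr⟩ := CharP.exists F
    obtain ⟨m, hr', hm⟩ := FiniteField.card F r
    have : r = p := by
      rw [h] at hm
      have h1 : r ∣ p ^ k := hm ▸ dvd_pow_self r m.ne_zero
      exact (Nat.prime_dvd_prime_iff_eq hr' hp).1 (hr'.dvd_of_dvd_pow h1)
    exact this ▸ hr
  let _ := ZMod.algebra F p
  have e : (F ≃+* F) ≃ (F ≃ₐ[ZMod p] F) :=
    { toFun := fun s => AlgEquiv.ofRingEquiv (f := s) (fun x =>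
        RingHom.congr_fun (RingHom.ext_zmod (s.toRingHom.comp (algebraMap (ZMod p) F))
          (algebraMap (ZMod p) F)) x)
      invFun := fun s => s.toRingEquiv
      left_inv := fun _ => rfl
      right_inv := fun _ => rfl }
  rw [Nat.card_congr e, IsGalois.card_aut_eq_finrank]
  have h2 := Module.card_eq_pow_finrank (K := ZMod p) (V := F)
  rw [ZMod.card, h] at h2
  exact (Nat.pow_right_injective hp.two_le h2).symm

end Pool.Agent.H.MP_e84969_co
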