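import Pool.Agent.H.MP_e84969_co.D

set_option linter.unusedSectionVars false

namespace Pool.Agent.H.MP_e84969_co
open Module Finset

variable {F : Type} [Field F] [Fintype F] {ι : Type} [Fintype ι] [DecidableEq ι]


lemma q1 : (1 : ℝ) ≤ (Fintype.card F : ℝ) := by exact_mod_cast Fintype.card_pos
lemma q2 : (2 : ℝ) ≤ (Fintype.card F : ℝ) := by exact_mod_cast Fintype.one_lt_card

lemma fr_top : finrank F (⊤ : Submodule F (ι → F)) = (Fintype.card ι) := by simp

/-- invariant subspaces of a linear map -/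
lemma fixT (hq : 3 ≤ Fintype.card F) (T : (ι → F) →ₗ[F] (ι → F)) (r a : ℕ)
    (hr : finrank F (LinearMap.range T) = r) (ha : finrank F (LinearMap.ker T) = a) :
    cnt (fun K : Submodule F (ι → F) => ∀ x ∈ K, T x ∈ K) ≤
      ((r + 1) * (2 * (Fintype.card F : ℝ) ^ ((r : ℝ) ^ 2 / 4))) * ((a + 1) * (2 * (Fintype.card F : ℝ) ^ ((a : ℝ) ^ 2 / 4))) := by
  refine (cnt_union (fun Y : Submodule F (ι → F) => ⊥ ≤ Y ∧ Y ≤ LinearMap.range T)
    (fun Y K => Y ≤ K ∧ K ≤ Y.comap T) ((a + 1) * (2 * (Fintype.card F : ℝ) ^ ((a : ℝ) ^ 2 / 4))) ?_ ?_).trans ?_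
  · intro K hK
    refine ⟨K.map T, ⟨bot_le, LinearMap.map_le_range⟩, ?_, Submodule.le_comap_map _ _⟩
    rintro _ ⟨x, hx, rfl⟩; exact hK x hx
  · rintro Y ⟨-, hY⟩
    refine inter_all hq _ _ a ?_
    have h := LinearMap.finrank_range_add_finrank_ker (T.domRestrict (Y.comap T))
    have hk : LinearMap.ker T ≤ Y.comap T := fun x hx => by
      rw [Submodule.mem_comap, LinearMap.mem_ker.1 hx]; exact Y.zero_mem
    rw [LinearMap.range_domRestrict, LinearMap.ker_domRestrict,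
      (Submodule.comapSubtypeEquivOfLe hk).finrank_eq, Submodule.map_comap_eq_self hY, ha] at h
    exact h
  · refine mul_le_mul_of_nonneg_right (inter_all hq _ _ r (by simpa using hr.symm)) ?_
    have := q1 (F := F)
    positivity

noncomputable def Wd (g : G F ι) (l : Fˣ) : Finset ι := by
  classical exact univ.filter (fun i => ¬ (g.p i = i ∧ g.d i = l))

lemma mem_Wd {g : G F ι} {l : Fˣ} {i : ι} : i ∈ Wd g l ↔ ¬ (g.p i = i ∧ g.d i = l) := by
  simp [Wd]

lemma fix_lin (hq : 3 ≤ Fintype.card F) (g : G F ι) (hs : ∀ x, g.s x = x) (l : Fˣ)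
    (hl : ((Fintype.card ι) : ℝ) ≤ 2 * (Fintype.card F : ℝ) * ((Fintype.card ι) - (Wd g l).card)) :
    cnt (fun K : Submodule F (ι → F) => g • K = K) ≤
      4 * ((Fintype.card ι) + 1) ^ 2 * (Fintype.card F : ℝ) ^ (((Fintype.card ι) : ℝ) ^ 2 / 4) * ((Fintype.card F : ℝ) ^ (-((Fintype.card ι) : ℝ) / (12 * (Fintype.card F : ℝ)))) ^ (Wd g l).card := by
  let T : (ι → F) →ₗ[F] (ι → F) :=
    { toFun := fun x => act g x - (l : F) • x
      map_add' := fun x y => by rw [act_add, smul_add]; abel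
      map_smul' := fun c x => by
        rw [act_smul, hs, RingHom.id_apply, smul_sub, smul_comm c (l : F) x] }
  have hT : ∀ x, T x = act g x - (l : F) • x := fun _ => rfl
  set r := finrank F (LinearMap.range T) with hr
  set a := finrank F (LinearMap.ker T) with ha
  have hra : r + a = (Fintype.card ι) := by
    have := LinearMap.finrank_range_add_finrank_ker T
    simpa using this
  set W := Wd g l with hW
  have h1 : (Fintype.card ι) ≤ a + W.card := by
    have : E F (↑Wᶜ : Set ι) ≤ LinearMap.ker T := by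
      intro x hx
      rw [LinearMap.mem_ker, hT, sub_eq_zero]
      funext j
      obtain ⟨i, rfl⟩ := g.p.surjective j
      rw [act_p, hs]
      by_cases hi : i ∈ W
      · have h0 : x i = 0 := hx i (by simpa using hi)
        have h1 : x (g.p i) = 0 := hx _ (by
          simp only [coe_compl, Set.mem_compl_iff, mem_coe, not_not]
          rw [hW, mem_Wd] at hi ⊢
          intro h
          have := g.p.injective h.1
          rw [this] at h; exact hi h)
        simp [h0, h1]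
      · rw [hW, mem_Wd, not_not] at hi
        simp [hi.1, hi.2]
    have h2 := Submodule.finrank_mono this
    rw [finrank_E, card_compl] at h2
    omega
  obtain ⟨S, hSW, hS3, hS⟩ := exS g.p W
  have h2 : S.card ≤ r := by
    have : E F (↑S : Set ι) ⊓ LinearMap.ker T = ⊥ := by
      rw [eq_bot_iff]
      rintro x ⟨hx, hk⟩
      rw [Submodule.mem_bot]
      funext i
      by_cases hi : i ∈ S
      swap
      · exact hx i hi
      have h3 := congrFun (LinearMap.mem_ker.1 hk) i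
      rw [hT] at h3
      obtain ⟨j, rfl⟩ := g.p.surjective i
      simp only [Pi.sub_apply, act_p, hs, Pi.smul_apply, smul_eq_mul, Pi.zero_apply] at h3 ⊢
      by_cases hj : j ∈ S
      · have e := hS j hj hi
        have h4 := mem_Wd.1 (hSW hj)
        rw [e] at h3 ⊢
        rw [← sub_mul] at h3
        refine (mul_eq_zero.1 h3).resolve_left (fun h => h4 ⟨e, Units.ext (sub_eq_zero.1 h)⟩)
      · rw [hx j hj] at h3
        simpa using h3
    have h3 := Submodule.finrank_add_finrank_le_of_disjoint (disjoint_iff.2 this)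
    rw [finrank_E] at h3
    simp only [finrank_fintype_fun_eq_card] at h3
    omega
  refine (cnt_mono (r := fun K => ∀ x ∈ K, T x ∈ K) ?_).trans ((fixT hq T r a rfl rfl).trans ?_)
  · intro K hK x hx
    rw [hT]
    exact K.sub_mem (hK ▸ act_mem.2 hx) (K.smul_mem _ hx)
  have hq1 := q1 (F := F)
  have hq0 : (0 : ℝ) < (Fintype.card F : ℝ) := by linarith
  rw [← Real.rpow_natCast ((Fintype.card F : ℝ) ^ (-((Fintype.card ι) : ℝ) / (12 * (Fintype.card F : ℝ)))), ← Real.rpow_mul hq0.le]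
  have e1 : (Fintype.card F : ℝ) ^ ((r : ℝ) ^ 2 / 4) * (Fintype.card F : ℝ) ^ ((a : ℝ) ^ 2 / 4) ≤
      (Fintype.card F : ℝ) ^ (((Fintype.card ι) : ℝ) ^ 2 / 4) * (Fintype.card F : ℝ) ^ (-((Fintype.card ι) : ℝ) / (12 * (Fintype.card F : ℝ)) * (W.card : ℝ)) := by
    rw [← Real.rpow_add hq0, ← Real.rpow_add hq0]
    refine Real.rpow_le_rpow_of_exponent_le hq1 ?_
    have a1 : (r : ℝ) + a = (Fintype.card ι) := by exact_mod_cast hra
    have a2 : ((Fintype.card ι) : ℝ) ≤ a + W.card := by exact_mod_cast h1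
    have a3 : (W.card : ℝ) ≤ 3 * r := by exact_mod_cast (by omega : W.card ≤ 3 * r)
    have a4 : ((Fintype.card ι) : ℝ) / (2 * (Fintype.card F : ℝ)) ≤ a := by
      rw [div_le_iff₀ (by positivity)]; nlinarith
    have a5 : ((Fintype.card ι) : ℝ) / (2 * (Fintype.card F : ℝ)) * W.card ≤ a * (3 * r) :=
      mul_le_mul a4 a3 (by positivity) (by positivity)
    have a6 : -((Fintype.card ι) : ℝ) / (12 * (Fintype.card F : ℝ)) * (W.card : ℝ) = -(((Fintype.card ι) : ℝ) / (2 * (Fintype.card F : ℝ)) * W.card) / 6 := by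
      field_simp; ring
    rw [a6, ← a1]
    rw [← a1] at a5
    nlinarith
  have b1 : (r : ℝ) + 1 ≤ (Fintype.card ι) + 1 := by exact_mod_cast (by omega : r + 1 ≤ (Fintype.card ι) + 1)
  have b2 : (a : ℝ) + 1 ≤ (Fintype.card ι) + 1 := by exact_mod_cast (by omega : a + 1 ≤ (Fintype.card ι) + 1)
  calc _ = 4 * ((r + 1) * (a + 1)) * ((Fintype.card F : ℝ) ^ ((r : ℝ) ^ 2 / 4) * (Fintype.card F : ℝ) ^ ((a : ℝ) ^ 2 / 4)) := by ring
    _ ≤ 4 * (((Fintype.card ι) + 1) * ((Fintype.card ι) + 1)) *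
      ((Fintype.card F : ℝ) ^ (((Fintype.card ι) : ℝ) ^ 2 / 4) * (Fintype.card F : ℝ) ^ (-((Fintype.card ι) : ℝ) / (12 * (Fintype.card F : ℝ)) * (W.card : ℝ))) := by gcongr
    _ = _ := by ring

lemma fr_inf (K : Submodule F (ι → F)) (S : Finset ι) :
    finrank F K + S.card ≤ finrank F ↥(K ⊓ E F (↑S : Set ι)) + (Fintype.card ι) := by
  have h := Submodule.finrank_sup_add_finrank_inf_eq K (E F (↑S : Set ι))
  have h2 := Submodule.finrank_le (K ⊔ E F (↑S : Set ι))
  rw [finrank_E] at h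
  simp only [finrank_fintype_fun_eq_card] at h2
  omega

lemma tail (hq : 3 ≤ Fintype.card F) :
    cnt (fun K : Submodule F (ι → F) => 4 * finrank F K < (Fintype.card ι) ∨ 3 * (Fintype.card ι) < 4 * finrank F K) ≤
      ((Fintype.card ι) + 1) * (2 * (Fintype.card F : ℝ) ^ (3 * ((Fintype.card ι) : ℝ) ^ 2 / 16)) := by
  refine (cnt_sum (range ((Fintype.card ι) + 1)) 
    (fun j (K : Submodule F (ι → F)) => finrank F K = j ∧ (4 * j < (Fintype.card ι) ∨ 3 * (Fintype.card ι) < 4 * j))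
    ?_).trans ?_
  · intro K hK
    have h2 := Submodule.finrank_le K
    simp only [finrank_fintype_fun_eq_card] at h2
    exact ⟨_, by simp; omega, rfl, hK⟩
  refine (sum_le_card_nsmul _ _ (2 * (Fintype.card F : ℝ) ^ (3 * ((Fintype.card ι) : ℝ) ^ 2 / 16)) ?_).trans (by simp)
  intro j hj
  have hq1 := q1 (F := F)
  by_cases h : 4 * j < (Fintype.card ι) ∨ 3 * (Fintype.card ι) < 4 * j
  swap
  · rw [cnt_false (fun K hK => h hK.2)]; positivity
  refine (cnt_mono (fun K hK => hK.1)).trans ((gauss_le hq j).trans ?_)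
  simp only [finrank_fintype_fun_eq_card]
  refine mul_le_mul_of_nonneg_left (pow_le_rpow hq1 ?_) (by norm_num)
  have hj' : j ≤ (Fintype.card ι) := by simp at hj; omega
  rw [Nat.cast_mul, Nat.cast_sub hj']
  have a0 : (0 : ℝ) ≤ j := by positivity
  have a1 : (j : ℝ) ≤ (Fintype.card ι) := by exact_mod_cast hj'
  rcases h with h | h
  · have : (4 : ℝ) * j < (Fintype.card ι) := by exact_mod_cast h
    nlinarith
  · have : (3 : ℝ) * (Fintype.card ι) < 4 * j := by exact_mod_cast h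
    nlinarith

lemma fix_big (hq : 3 ≤ Fintype.card F) (g : G F ι) (S : Finset ι) (hS : ∀ i ∈ S, g.p i ∉ S)
    (ht : 12 * S.card ≤ (Fintype.card ι)) :
    cnt (fun K : Submodule F (ι → F) => g • K = K ∧ (Fintype.card ι) ≤ 4 * finrank F K) ≤
      ((Fintype.card ι) + 1) ^ 3 * (8 * (Fintype.card F : ℝ) ^ (((Fintype.card ι) : ℝ) ^ 2 / 4 - 3 * (S.card : ℝ) ^ 2 / 4)) := by
  classical
  set t := S.card with htd
  set S' := S.image g.p with hS'
  have hc' : S'.card = t := card_image_of_injective _ g.p.injective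
  have hdisj : Disjoint S S' := by
    rw [disjoint_right]; intro j hj
    obtain ⟨i, hi, rfl⟩ := mem_image.1 hj
    exact hS i hi
  set U := E F (↑Sᶜ : Set ι) with hU
  set U' := E F (↑S'ᶜ : Set ι) with hU'
  set U2 := E F (↑(S ∪ S')ᶜ : Set ι) with hU2
  have gU : g • U = U' := by
    rw [hU, smul_E, hU', hS']
    congr 1
    rw [coe_compl, coe_compl, coe_image, Set.image_compl_eq g.p.bijective]
  have hUU : U ⊓ U' = U2 := by
    ext x
    simp only [hU, hU', hU2, Submodule.mem_inf, mem_E, coe_compl, Set.mem_compl_iff, mem_coe,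
      not_not, mem_union]
    exact ⟨fun h i hi => hi.elim (h.1 i) (h.2 i),
      fun h => ⟨fun i hi => h i (Or.inl hi), fun i hi => h i (Or.inr hi)⟩⟩
  have c1 : (Sᶜ).card + t = (Fintype.card ι) := by rw [card_compl]; omega
  have c2 : ((S ∪ S')ᶜ).card + 2 * t = (Fintype.card ι) := by
    rw [card_compl, card_union_of_disjoint hdisj]; omega
  have fU : finrank F U + t = (Fintype.card ι) := by rw [hU, finrank_E]; exact c1
  have fU2 : finrank F U2 + 2 * t = (Fintype.card ι) := by rw [hU2, finrank_E]; exact c2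
  have hq1 := q1 (F := F)
  have hq0 : (0 : ℝ) < (Fintype.card F : ℝ) := by linarith
  refine (cnt_union (fun b : Fin ((Fintype.card ι) + 1) × Fin ((Fintype.card ι) + 1) × Fin ((Fintype.card ι) + 1) =>
      t ≤ b.1 ∧ (b.2.1 : ℕ) + b.2.2 ≤ t ∧ (b.1 : ℕ) + 2 * t ≤ (Fintype.card ι))
    (fun b K => ∃ Y : Submodule F (ι → F), (Y ≤ U ∧ finrank F Y = b.1 + b.2.1 ∧
      finrank F ↥(Y ⊓ U') = b.1 ∧ finrank F ↥(Y ⊔ g • Y) = b.1 + 2 * b.2.1) ∧
      (Y ⊔ g • Y ≤ K ∧ K ≤ ⊤ ∧ finrank F K = b.1 + 2 * b.2.1 + b.2.2))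
    (8 * (Fintype.card F : ℝ) ^ (((Fintype.card ι) : ℝ) ^ 2 / 4 - 3 * (t : ℝ) ^ 2 / 4)) ?_ ?_).trans ?_
  · rintro K ⟨hK, hj⟩
    set Y := K ⊓ U with hY
    have gY : g • Y = K ⊓ U' := by rw [hY, smul_inf, hK, gU]
    have e1 : Y ⊓ U' = K ⊓ U2 := by rw [hY, inf_assoc, hUU]
    have e2 : Y ⊓ g • Y = K ⊓ U2 := by
      rw [gY, hY, ← hUU]; exact (inf_inf_distrib_left K U U').symm
    have f1 := fr_inf K Sᶜ
    have f2 := fr_inf K (S ∪ S')ᶜ
    rw [← hU, ← hY] at f1
    rw [← hU2] at f2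
    have f3 := Submodule.finrank_sup_add_finrank_inf_eq Y (g • Y)
    rw [e2, finrank_smul] at f3
    have hle : Y ⊔ g • Y ≤ K := sup_le inf_le_left (gY ▸ inf_le_left)
    have f4 := Submodule.finrank_mono hle
    have f5 : finrank F ↥(K ⊓ U2) ≤ finrank F U2 := Submodule.finrank_mono inf_le_right
    have f6 : finrank F ↥(K ⊓ U2) ≤ finrank F Y := Submodule.finrank_mono (e1 ▸ inf_le_left)
    have f7 := Submodule.finrank_le K
    simp only [finrank_fintype_fun_eq_card] at f7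
    refine ⟨(⟨finrank F ↥(K ⊓ U2), by omega⟩, ⟨finrank F Y - finrank F ↥(K ⊓ U2), by omega⟩,
      ⟨finrank F K - finrank F ↥(Y ⊔ g • Y), by omega⟩), ⟨by simp only; omega, by simp only; omega,
      by simp only; omega⟩, Y, ⟨inf_le_right, by simp only; omega, by rw [e1], by simp only; omega⟩,
      hle, le_top, by simp only; omega⟩
  · rintro ⟨z, a, b⟩ ⟨k1, k2, k3⟩
    simp only at k1 k2 k3 ⊢
    generalize (z : ℕ) = z at *
    generalize (a : ℕ) = a at *
    generalize (b : ℕ) = b at *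
    obtain ⟨m, hm⟩ := Nat.exists_eq_add_of_le k3
    refine (cnt_union _ _ (2 * (Fintype.card F : ℝ) ^ (b * ((Fintype.card ι) - (z + 2 * a + b)))) (fun K hK => hK) ?_).trans ?_
    · rintro Y ⟨-, -, -, h⟩
      refine (inter_le hq _ _ _).trans (le_of_eq ?_)
      rw [h, fr_top, Nat.add_sub_cancel_left]
    have h2 : cnt (fun Y : Submodule F (ι → F) => Y ≤ U ∧ finrank F Y = z + a ∧
        finrank F ↥(Y ⊓ U') = z ∧ finrank F ↥(Y ⊔ g • Y) = z + 2 * a) ≤
        (2 * (Fintype.card F : ℝ) ^ (z * m)) * (2 * (Fintype.card F : ℝ) ^ (a * (m + t - a))) := by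
      refine (cnt_union (fun Z : Submodule F (ι → F) => ⊥ ≤ Z ∧ Z ≤ U2 ∧ finrank F Z = z)
        (fun Z Y => Z ≤ Y ∧ Y ≤ U ∧ finrank F Y = z + a) (2 * (Fintype.card F : ℝ) ^ (a * (m + t - a))) ?_ ?_).trans ?_
      · rintro Y ⟨y1, y2, y3, -⟩
        exact ⟨Y ⊓ U', ⟨bot_le, hUU ▸ inf_le_inf_right _ y1, y3⟩, inf_le_left, y1, y2⟩
      · rintro Z ⟨-, -, h⟩
        refine (inter_le hq _ _ _).trans (le_of_eq ?_)
        rw [h, Nat.add_sub_cancel_left]
        congr 3; omega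
      · refine mul_le_mul_of_nonneg_right ((inter_le hq _ _ _).trans (le_of_eq ?_)) (by positivity)
        rw [finrank_bot, Nat.sub_zero]
        congr 3; omega
    refine (mul_le_mul_of_nonneg_right h2 (by positivity)).trans ?_
    have e : (Fintype.card ι) - (z + 2 * a + b) = m + 2 * t - (2 * a + b) := by omega
    rw [e]
    have h3 : (Fintype.card F : ℝ) ^ (z * m + a * (m + t - a) + b * (m + 2 * t - (2 * a + b))) ≤
        (Fintype.card F : ℝ) ^ (((Fintype.card ι) : ℝ) ^ 2 / 4 - 3 * (t : ℝ) ^ 2 / 4) := by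
      refine pow_le_rpow hq1 ?_
      rw [hm]
      push_cast [Nat.cast_sub (by omega : a ≤ m + t), Nat.cast_sub (by omega : 2 * a + b ≤ m + 2 * t)]
      have a1 : (t : ℝ) ≤ z := by exact_mod_cast k1
      have a2 : (a : ℝ) + b ≤ t := by exact_mod_cast k2
      have a3 : (0 : ℝ) ≤ a := by positivity
      have a4 : (0 : ℝ) ≤ b := by positivity
      have a5 : (0 : ℝ) ≤ m := by positivity
      have a6 : (0 : ℝ) ≤ t := by positivity
      nlinarith [sq_nonneg ((z : ℝ) - m), sq_nonneg ((t : ℝ) - 2 * (a + b)),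
        mul_le_mul_of_nonneg_right a2 a5, mul_le_mul_of_nonneg_right a1 a6,
        mul_le_mul_of_nonneg_right (by linarith : (b : ℝ) ≤ t) a6]
    rw [pow_add, pow_add] at h3
    linarith
  · refine mul_le_mul_of_nonneg_right ((cnt_le_card _).trans (le_of_eq ?_)) (by positivity)
    simp; ring

lemma sol_count (s : F ≃+* F) (hs : ∃ x, s x ≠ x) (a b : Fˣ) :
    cnt (fun x : F => a * s x = b * x) ≤ (Fintype.card F : ℝ) / 2 := by
  classical
  obtain ⟨y, hy⟩ : ∃ y, ¬ (a * s y = b * y) := by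
    by_contra h
    push Not at h
    obtain ⟨x, hx⟩ := hs
    have h1 := h 1
    rw [map_one, mul_one, mul_one] at h1
    have h2 := h x
    rw [h1] at h2
    exact hx (mul_left_cancel₀ b.ne_zero h2)
  have h1 : cnt (fun x : F => a * s x = b * x) ≤ cnt (fun x : F => ¬ (a * s x = b * x)) := by
    refine cnt_inj (fun x => x + y) (fun x hx h => hy ?_) (fun _ _ _ _ h => add_right_cancel h)
    rw [map_add] at h
    linear_combination h - hx
  have h2 : cnt (fun x : F => a * s x = b * x) + cnt (fun x : F => ¬ (a * s x = b * x)) = (Fintype.card F : ℝ) := by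
    rw [cnt_eq_card, cnt_eq_card]
    exact_mod_cast (card_filter_add_card_filter_not _).trans card_univ
  linarith

lemma fixY (g : G F ι) (hs : ∃ x, g.s x ≠ x) (X : Finset ι) (hX : ∀ i ∈ X, g.p i = i) (y : ℕ) :
    cnt (fun Y : Submodule F (ι → F) => g • Y = Y ∧ Y ≤ E F (↑X : Set ι) ∧ finrank F Y = y) ≤
      2 ^ (Fintype.card ι) * ((Fintype.card F : ℝ) / 2) ^ (y * (X.card - y)) := by
  classical
  have hq1 := q1 (F := F)
  refine (cnt_union (fun N : Finset ι => N ⊆ X ∧ N.card = y)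
    (fun N Y => ∃ A : Mat F N, (g • KK N A = KK N A ∧ KK N A ≤ E F (↑X : Set ι)) ∧ KK N A = Y)
    (((Fintype.card F : ℝ) / 2) ^ (y * (X.card - y))) ?_ ?_).trans ?_
  · rintro Y ⟨h1, h2, h3⟩
    obtain ⟨N, hN, A, rfl⟩ := exN (K := Y) (L := (↑X : Set ι)ᶜ) (fun x hx h0 => by
      funext i
      by_cases hi : i ∈ X
      · exact h0 i (by simpa using hi)
      · exact h2 hx i hi)
    exact ⟨N, ⟨fun i hi => by simpa using hN i hi, by rw [← h3, finrank_KK]⟩, A, ⟨h1, h2⟩, rfl⟩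
  · rintro N ⟨hN, hy⟩
    refine (cnt_surj (KK N) (fun Y hY => hY)).trans ?_
    have hrow : ∀ (A : Mat F N) (i : {i // i ∈ N}) (c : {c // c ∉ N}),
        lift N A (Pi.single i 1) c = A c i := by
      intro A i c; rw [lift_out]; simp [Pi.single_apply]
    refine (cnt_inj (r := fun B : {c // c ∈ X \ N} → {i // i ∈ N} → F =>
        ∀ (c : {c // c ∈ X \ N}) (i : {i // i ∈ N}), g.d c * g.s (B c i) = g.d i * B c i)
      (fun A c => A ⟨c, (mem_sdiff.1 c.2).2⟩) ?_ ?_).trans ?_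
    · rintro A ⟨h1, -⟩ c i
      have hc := mem_sdiff.1 c.2
      have h2 : act g (lift N A (Pi.single i 1)) ∈ KK N A := h1 ▸ act_mem.2 ⟨_, rfl⟩
      have h3 := mem_KK.1 h2 ⟨c, hc.2⟩
      have h4 : ∀ j ∈ X, act g (lift N A (Pi.single i 1)) j =
          g.d j * g.s (lift N A (Pi.single i 1) j) := by
        intro j hj
        conv_lhs => rw [← hX j hj, act_p]
      rw [h4 _ hc.1, hrow A i ⟨c, hc.2⟩] at h3
      rw [h3, sum_eq_single i]
      · rw [h4 _ (hN i.2), lift_in]; simp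
      · intro j _ hj
        rw [h4 _ (hN j.2), lift_in, Pi.single_eq_of_ne hj]; simp
      · simp
    · rintro A B ⟨-, hA⟩ ⟨-, hB⟩ h
      funext c i
      by_cases hc : (c : ι) ∈ X
      · exact congrFun (congrFun h ⟨c, mem_sdiff.2 ⟨hc, c.2⟩⟩) i
      · rw [← hrow A, ← hrow B, hA ⟨_, rfl⟩ c hc, hB ⟨_, rfl⟩ c hc]
    · refine (cnt_pi (fun (c : {c // c ∈ X \ N}) (v : {i // i ∈ N} → F) =>
        ∀ i, g.d c * g.s (v i) = g.d i * v i) (((Fintype.card F : ℝ) / 2) ^ y) (fun c => ?_)).trans (le_of_eq ?_)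
      · refine (cnt_pi (fun (i : {i // i ∈ N}) (x : F) => g.d c * g.s x = g.d i * x) ((Fintype.card F : ℝ) / 2)
          (fun i => sol_count _ hs _ _)).trans (le_of_eq ?_)
        rw [Fintype.card_coe, hy]
      · rw [Fintype.card_coe, card_sdiff_of_subset hN, hy, pow_mul]
  · refine mul_le_mul_of_nonneg_right ((cnt_le_card _).trans (le_of_eq ?_)) (by positivity)
    simp

lemma fix_semi (hq : 3 ≤ Fintype.card F) (g : G F ι) (hs : ∃ x, g.s x ≠ x) (X : Finset ι)
    (hX : ∀ i ∈ X, g.p i = i) (h8 : 7 * (Fintype.card ι) ≤ 8 * X.card) :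
    cnt (fun K : Submodule F (ι → F) => g • K = K ∧ (Fintype.card ι) ≤ 4 * finrank F K ∧ 4 * finrank F K ≤ 3 * (Fintype.card ι))
      ≤ ((Fintype.card ι) + 1) ^ 2 * (2 ^ (Fintype.card ι) * (2 * (Fintype.card F : ℝ) ^ (((Fintype.card ι) : ℝ) ^ 2 / 4) * (2 : ℝ) ^ (-((Fintype.card ι) : ℝ) ^ 2 / 64))) := by
  classical
  have hq1 := q1 (F := F)
  have hq0 : (0 : ℝ) < (Fintype.card F : ℝ) := by linarith
  have hXn : X.card ≤ (Fintype.card ι) := card_le_univ X
  have gU : g • E F (↑X : Set ι) = E F (↑X : Set ι) := by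
    rw [smul_E]; congr 1
    ext j; constructor
    · rintro ⟨i, hi, rfl⟩; rw [hX i hi]; exact hi
    · intro hj; exact ⟨j, hj, hX j hj⟩
  refine (cnt_union (fun b : Fin ((Fintype.card ι) + 1) × Fin ((Fintype.card ι) + 1) =>
      (b.2 : ℕ) + X.card ≤ (Fintype.card ι) ∧ (Fintype.card ι) ≤ 4 * (b.1 + b.2) ∧ 4 * ((b.1 : ℕ) + b.2) ≤ 3 * (Fintype.card ι))
    (fun b K => ∃ Y : Submodule F (ι → F),
      (g • Y = Y ∧ Y ≤ E F (↑X : Set ι) ∧ finrank F Y = b.1) ∧
      (Y ≤ K ∧ K ≤ ⊤ ∧ finrank F K = b.1 + b.2))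
    (2 ^ (Fintype.card ι) * (2 * (Fintype.card F : ℝ) ^ (((Fintype.card ι) : ℝ) ^ 2 / 4) * (2 : ℝ) ^ (-((Fintype.card ι) : ℝ) ^ 2 / 64))) ?_ ?_).trans ?_
  · rintro K ⟨hK, h1, h2⟩
    have f1 := fr_inf K X
    have f2 : finrank F ↥(K ⊓ E F (↑X : Set ι)) ≤ finrank F K := Submodule.finrank_mono inf_le_left
    refine ⟨(⟨finrank F ↥(K ⊓ E F (↑X : Set ι)), by omega⟩,
      ⟨finrank F K - finrank F ↥(K ⊓ E F (↑X : Set ι)), by omega⟩),
      ⟨by simp only; omega, by simp only; omega, by simp only; omega⟩, K ⊓ E F (↑X : Set ι),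
      ⟨by rw [smul_inf, hK, gU], inf_le_right, rfl⟩, inf_le_left, le_top, by simp only; omega⟩
  · rintro ⟨y, a⟩ ⟨k1, k2, k3⟩
    simp only at k1 k2 k3 ⊢
    generalize (y : ℕ) = y at *
    generalize (a : ℕ) = a at *
    refine (cnt_union _ _ (2 * (Fintype.card F : ℝ) ^ (a * ((Fintype.card ι) - (y + a)))) (fun K hK => hK) ?_).trans ?_
    · rintro Y ⟨-, -, h⟩
      refine (inter_le hq _ _ _).trans (le_of_eq ?_)
      rw [h, fr_top, Nat.add_sub_cancel_left]
    refine (mul_le_mul_of_nonneg_right (fixY g hs X hX y) (by positivity)).trans ?_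
    rw [mul_assoc]
    refine mul_le_mul_of_nonneg_left ?_ (by positivity)
    obtain ⟨u, hu⟩ : ∃ u, X.card = y + u := Nat.exists_eq_add_of_le (by omega)
    obtain ⟨v, hv⟩ : ∃ v, (Fintype.card ι) = y + a + v := Nat.exists_eq_add_of_le (by omega)
    rw [show X.card - y = u by omega, show (Fintype.card ι) - (y + a) = v by omega, div_pow]
    have a0 : ((Fintype.card ι) : ℝ) = y + a + v := by exact_mod_cast hv
    have a1 : (u : ℝ) ≤ v := by exact_mod_cast (by omega : u ≤ v)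
    have a2 : ((Fintype.card ι) : ℝ) ≤ 8 * y := by exact_mod_cast (by omega : (Fintype.card ι) ≤ 8 * y)
    have a3 : ((Fintype.card ι) : ℝ) ≤ 8 * u := by exact_mod_cast (by omega : (Fintype.card ι) ≤ 8 * u)
    have h3 : (Fintype.card F : ℝ) ^ (y * u + a * v) ≤ (Fintype.card F : ℝ) ^ (((Fintype.card ι) : ℝ) ^ 2 / 4) := by
      refine pow_le_rpow hq1 ?_
      push_cast
      rw [a0]
      nlinarith [sq_nonneg ((y : ℝ) + a - v),
        mul_le_mul_of_nonneg_left a1 (by positivity : (0 : ℝ) ≤ y)]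
    have h4 : ((2 : ℝ) ^ (y * u))⁻¹ ≤ (2 : ℝ) ^ (-((Fintype.card ι) : ℝ) ^ 2 / 64) := by
      rw [← Real.rpow_natCast, ← Real.rpow_neg (by norm_num)]
      refine Real.rpow_le_rpow_of_exponent_le (by norm_num) ?_
      push_cast
      have := mul_le_mul a2 a3 (by positivity) (by positivity)
      nlinarith
    calc (Fintype.card F : ℝ) ^ (y * u) / 2 ^ (y * u) * (2 * (Fintype.card F : ℝ) ^ (a * v))
        = 2 * (Fintype.card F : ℝ) ^ (y * u + a * v) * ((2 : ℝ) ^ (y * u))⁻¹ := by rw [pow_add]; ring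
      _ ≤ _ := by gcongr
  · refine mul_le_mul_of_nonneg_right ((cnt_le_card _).trans (le_of_eq ?_)) (by positivity)
    simp; ring

end Pool.Agent.H.MP_e84969_co
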