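import Pool.Agent.H.MP_e84969_co.U

set_option linter.unusedSectionVars false

namespace Pool.Agent.H.MP_e84969_co
open Module Finset

variable {F : Type} [Field F] [Fintype F] {ι : Type} [Fintype ι] [DecidableEq ι]


def Good (K : Submodule F (ι → F)) : Prop :=
  ∀ K' : Submodule F (ι → F), (∀ S, Ind K S ↔ Ind K' S) → ∃ g : G F ι, g • K = K'

lemma goodKK {N : Finset ι} {A : Mat F N} (hR : Rich A) (h3 : 3 ≤ N.card) : Good (KK N A) := by
  intro K' hK'
  obtain ⟨A', rfl⟩ := std ((hK' _).1 (KK_ind1 N A))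
    (fun i hi h => KK_ind2 N A i hi ((hK' _).2 h))
  obtain ⟨σ, δ, ε, hδ, hε, h⟩ := rigid (A := A) (A' := A') (fun R Q => by
    change Dep A R Q ↔ Dep A' R Q
    rw [dep_iff, dep_iff, hK']) hR (by simpa using h3)
  refine ⟨⟨1, fun j => if h : j ∈ N then (Units.mk0 _ (hδ ⟨j, h⟩))⁻¹ else Units.mk0 _ (hε ⟨j, h⟩), σ⟩,
    Submodule.eq_of_le_of_finrank_eq ?_ (by rw [finrank_smul, finrank_KK, finrank_KK])⟩
  rintro _ ⟨x, hx, rfl⟩
  have hx' := mem_KK.1 hx
  rw [mem_KK]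
  intro c
  simp only [act, Equiv.Perm.one_def, Equiv.refl_symm, Equiv.refl_apply, dif_neg c.2,
    Units.val_mk0]
  rw [hx' c, map_sum, mul_sum]
  refine sum_congr rfl (fun i _ => ?_)
  rw [dif_pos i.2, h, map_mul]
  have := hδ i
  simp only [Units.val_inv_eq_inv_val, Units.val_mk0, Subtype.coe_eta]
  field_simp

lemma orbit_le (hn : 0 < (Fintype.card ι)) (K : Submodule F (ι → F)) :
    cnt (fun K' => ∃ g : G F ι, g • K = K') * ((Fintype.card F : ℝ) - 1) ≤ Nat.card (G F ι) := by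
  have := Fintype.ofFinite (G F ι)
  rw [Nat.card_eq_fintype_card, ← cnt_true (α := G F ι)]
  refine cnt_lower _ (fun g : G F ι => g • K) _ ?_
  rintro _ ⟨g, rfl⟩
  rw [← cnt_units]
  obtain ⟨i0⟩ : Nonempty ι := Fintype.card_pos_iff.1 hn
  refine cnt_inj (fun l : Fˣ => g * ⟨1, fun _ => l, RingEquiv.refl F⟩) (fun l _ => ⟨trivial, ?_⟩) ?_
  · rw [mul_smul]; congr 1
    refine Submodule.eq_of_le_of_finrank_eq ?_ (finrank_smul _ _)
    rintro _ ⟨x, hx, rfl⟩
    exact K.smul_mem (l : F) hx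
  · intro a b _ _ h
    have := congrArg (fun g : G F ι => g.d i0) (mul_left_cancel h)
    exact this

lemma good_le (hn : 0 < (Fintype.card ι)) {C : Type} (cls : Submodule F (ι → F) → C)
    (h1 : Function.Surjective cls)
    (h3 : ∀ K K', cls K = cls K' → ∃ π : Equiv.Perm ι, ∀ S, Ind K S ↔ Ind K' (π '' S)) :
    cnt (fun K : Submodule F (ι → F) => Good K) ≤ Nat.card C * (Nat.card (G F ι) / ((Fintype.card F : ℝ) - 1)) := by
  have : Finite C := Finite.of_surjective cls h1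
  have := Fintype.ofFinite C
  have hq2 := q2 (F := F)
  rw [Nat.card_eq_fintype_card, ← cnt_true (α := C)]
  refine cnt_union _ (fun c K => Good K ∧ cls K = c) _ (fun K hK => ⟨_, trivial, hK, rfl⟩) ?_
  intro c _
  by_cases h : ∃ K, Good K ∧ cls K = c
  swap
  · rw [cnt_false (fun K hK => h ⟨K, hK⟩)]
    exact div_nonneg (by positivity) (by linarith)
  obtain ⟨K0, g0, rfl⟩ := h
  rw [le_div_iff₀ (by linarith)]
  refine le_trans (mul_le_mul_of_nonneg_right (cnt_mono ?_) (by linarith)) (orbit_le hn K0)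
  rintro K ⟨-, hK⟩
  obtain ⟨π, hπ⟩ := h3 K0 K hK.symm
  let h : G F ι := ⟨π, 1, RingEquiv.refl F⟩
  obtain ⟨g, hg⟩ := g0 (h⁻¹ • K) (fun S => by
    rw [hπ, ← ind_smul h (h⁻¹ • K), smul_inv_smul])
  exact ⟨h * g, by rw [mul_smul, hg, smul_inv_smul]⟩

lemma cnt_E (L : Finset ι) : cnt (fun x : ι → F => x ∈ E F (↑L : Set ι)) = (Fintype.card F : ℝ) ^ L.card := by
  classical
  rw [cnt_natCard, Nat.card_eq_fintype_card, ← finrank_E (F := F) L]
  exact_mod_cast Module.card_eq_pow_finrank (K := F) (V := E F (↑L : Set ι))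

lemma bad_j (hq : 3 ≤ Fintype.card F) (t j : ℕ) (h3 : 3 ≤ j) (hj : 4 * j ≤ 3 * (Fintype.card ι))
    (ht : 4 * t ≤ (Fintype.card ι)) {ν : ℝ} (hν0 : 0 ≤ ν) (hν1 : ν ≤ 1) (hν : ν ^ 4 = 1 - 1 / (Fintype.card F : ℝ) ^ 3) :
    cnt (fun K : Submodule F (ι → F) => ¬ Good K ∧ finrank F K = j) ≤
      (2 / (Fintype.card F : ℝ) ^ t + (Fintype.card ι) ^ t * ((Fintype.card ι) ^ 3 * (Fintype.card F : ℝ) ^ 3) * ν ^ (Fintype.card ι)) * (Fintype.card F : ℝ) ^ (j * ((Fintype.card ι) - j)) := by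
  classical
  have hq1 := q1 (F := F)
  obtain ⟨L, -, hL⟩ := exists_subset_card_eq (s := (univ : Finset ι))
    (by rw [card_univ]; omega : (Fintype.card ι) - j - t ≤ (univ : Finset ι).card)
  rw [add_mul]
  refine (cnt_or (r := fun K => ¬ Ind K (↑L : Set ι) ∧ finrank F K = j)
    (s := fun K => ∃ N : Finset ι, (N ⊆ Lᶜ ∧ N.card = j) ∧ ∃ A : Mat F N, ¬ Rich A ∧ KK N A = K)
    ?_).trans (add_le_add ?_ ?_)
  · rintro K ⟨hK, hr⟩
    by_cases h : Ind K (↑L : Set ι)
    · obtain ⟨N, hN, A, rfl⟩ := exN h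
      rw [finrank_KK] at hr
      exact Or.inr ⟨N, ⟨fun i hi => by simpa using hN i hi, hr⟩, A,
        fun hR => hK (goodKK hR (by omega)), rfl⟩
    · exact Or.inl ⟨h, hr⟩
  · refine (cnt_union (fun x : ι → F => x ∈ E F (↑L : Set ι) ∧ x ≠ 0)
      (fun x K => Submodule.span F {x} ≤ K ∧ K ≤ ⊤ ∧ finrank F K = j)
      (2 * (Fintype.card F : ℝ) ^ ((j - 1) * ((Fintype.card ι) - j))) ?_ ?_).trans ?_
    · rintro K ⟨hK, hr⟩
      unfold Ind at hK
      push Not at hK
      obtain ⟨x, h1, h2, h4⟩ := hK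
      exact ⟨x, ⟨h2, h4⟩, by simpa using h1, le_top, hr⟩
    · rintro x ⟨-, hx⟩
      refine (inter_le hq _ _ _).trans (le_of_eq ?_)
      rw [finrank_span_singleton hx, fr_top]
    · refine (mul_le_mul_of_nonneg_right ((cnt_mono (fun x hx => hx.1)).trans (cnt_E L).le)
        (by positivity)).trans (le_of_eq ?_)
      have e : j * ((Fintype.card ι) - j) = (j - 1) * ((Fintype.card ι) - j) + L.card + t := by
        obtain ⟨i, rfl⟩ : ∃ i, j = i + 1 := ⟨j - 1, by omega⟩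
        rw [Nat.add_sub_cancel, add_mul, hL]; omega
      rw [e, pow_add, pow_add]; field_simp
  · refine (cnt_union _ _ (((Fintype.card ι) ^ 3 * (Fintype.card F : ℝ) ^ 3) * ν ^ (Fintype.card ι) * (Fintype.card F : ℝ) ^ (j * ((Fintype.card ι) - j))) (fun K hK => hK) ?_).trans ?_
    · rintro N ⟨-, hN⟩
      refine (cnt_surj (KK N) (fun K hK => hK)).trans (poor_count.trans ?_)
      rw [Fintype.card_subtype_compl, Fintype.card_coe, hN, ← hν, mul_pow, ← pow_mul, ← pow_mul]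
      have a1 : (j : ℝ) ≤ (Fintype.card ι) := by exact_mod_cast (by omega : j ≤ (Fintype.card ι))
      have a2 : ν ^ (4 * ((Fintype.card ι) - j)) ≤ ν ^ (Fintype.card ι) := pow_le_pow_of_le_one hν0 hν1 (by omega)
      calc _ ≤ ((Fintype.card ι) : ℝ) ^ 3 * (Fintype.card F : ℝ) ^ 3 * ((Fintype.card F : ℝ) ^ (j * ((Fintype.card ι) - j)) * ν ^ (Fintype.card ι)) := by gcongr
        _ = _ := by ring
    · have h1 : cnt (fun N : Finset ι => N ⊆ Lᶜ ∧ N.card = j) ≤ ((Fintype.card ι) : ℝ) ^ t := by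
        refine (cnt_inj (r := fun T : Finset ι => T.card = t) (fun N => Lᶜ \ N) ?_ ?_).trans ?_
        · rintro N ⟨h1, h2⟩
          rw [card_sdiff_of_subset h1, card_compl, hL]; omega
        · rintro N N' ⟨h1, -⟩ ⟨h2, -⟩ h
          rw [← Finset.sdiff_sdiff_eq_self h1, h, Finset.sdiff_sdiff_eq_self h2]
        · have e : univ.filter (fun T : Finset ι => T.card = t) = powersetCard t univ := by
            ext T; simp
          rw [cnt_eq_card, e, card_powersetCard, card_univ]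
          exact_mod_cast Nat.choose_le_pow _ _
      refine (mul_le_mul_of_nonneg_right h1 (by positivity)).trans (le_of_eq (by ring))

lemma lower (hq : 3 ≤ Fintype.card F) (t : ℕ) (hn : 16 ≤ (Fintype.card ι)) (ht : 4 * t ≤ (Fintype.card ι))
    {ν : ℝ} (hν0 : 0 ≤ ν) (hν1 : ν ≤ 1) (hν : ν ^ 4 = 1 - 1 / (Fintype.card F : ℝ) ^ 3) :
    NN F ι * (1 - (2 / (Fintype.card F : ℝ) ^ t + (Fintype.card ι) ^ t * ((Fintype.card ι) ^ 3 * (Fintype.card F : ℝ) ^ 3) * ν ^ (Fintype.card ι) + 2 * (Fintype.card F : ℝ) * (((Fintype.card ι) + 1) * (1 / 2) ^ (Fintype.card ι)))) ≤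
      cnt (fun K : Submodule F (ι → F) => Good K) := by
  have hq1 := q1 (F := F)
  have hq2 := q2 (F := F)
  set e := 2 / (Fintype.card F : ℝ) ^ t + (Fintype.card ι) ^ t * ((Fintype.card ι) ^ 3 * (Fintype.card F : ℝ) ^ 3) * ν ^ (Fintype.card ι) with he
  have he0 : 0 ≤ e := by positivity
  have h1 : NN F ι ≤ cnt (fun K : Submodule F (ι → F) => Good K) +
      (cnt (fun K : Submodule F (ι → F) => 4 * finrank F K < (Fintype.card ι) ∨ 3 * (Fintype.card ι) < 4 * finrank F K) +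
      cnt (fun K : Submodule F (ι → F) => ¬ Good K ∧ (Fintype.card ι) ≤ 4 * finrank F K ∧
        4 * finrank F K ≤ 3 * (Fintype.card ι))) := by
    refine (cnt_or (s := fun K => ¬ Good K) (fun K _ => em _)).trans (add_le_add le_rfl (cnt_or ?_))
    intro K hK
    by_cases h : (Fintype.card ι) ≤ 4 * finrank F K ∧ 4 * finrank F K ≤ 3 * (Fintype.card ι)
    · exact Or.inr ⟨hK, h⟩
    · exact Or.inl (by omega)
  have h2 : cnt (fun K : Submodule F (ι → F) => 4 * finrank F K < (Fintype.card ι) ∨ 3 * (Fintype.card ι) < 4 * finrank F K) ≤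
      NN F ι * (2 * (Fintype.card F : ℝ) * (((Fintype.card ι) + 1) * (1 / 2) ^ (Fintype.card ι))) := by
    refine (tail hq).trans ?_
    have a1 : (Fintype.card F : ℝ) ^ (3 * ((Fintype.card ι) : ℝ) ^ 2 / 16) ≤ (Fintype.card F : ℝ) ^ (((Fintype.card ι) : ℝ) ^ 2 / 4) * (1 / 2) ^ (Fintype.card ι) := by
      have b1 : (16 : ℝ) ≤ (Fintype.card ι) := by exact_mod_cast hn
      calc _ ≤ (Fintype.card F : ℝ) ^ (((Fintype.card ι) : ℝ) ^ 2 / 4 + -((Fintype.card ι) : ℝ)) :=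
            Real.rpow_le_rpow_of_exponent_le hq1 (by nlinarith)
        _ = (Fintype.card F : ℝ) ^ (((Fintype.card ι) : ℝ) ^ 2 / 4) * (1 / (Fintype.card F : ℝ)) ^ (Fintype.card ι) := by
            rw [Real.rpow_add (by linarith), Real.rpow_neg (by linarith), Real.rpow_natCast]; simp
        _ ≤ _ := by gcongr
    have a2 := Q_le (F := F) (ι := ι)
    calc _ ≤ (((Fintype.card ι) : ℝ) + 1) * (2 * ((Fintype.card F : ℝ) * NN F ι * (1 / 2) ^ (Fintype.card ι))) := by
          gcongr; exact a1.trans (by gcongr)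
      _ = _ := by ring
  have h3 : cnt (fun K : Submodule F (ι → F) => ¬ Good K ∧ (Fintype.card ι) ≤ 4 * finrank F K ∧
        4 * finrank F K ≤ 3 * (Fintype.card ι)) ≤ NN F ι * e := by
    refine (cnt_sum ((range ((Fintype.card ι) + 1)).filter (fun j => (Fintype.card ι) ≤ 4 * j ∧ 4 * j ≤ 3 * (Fintype.card ι)))
      (fun j (K : Submodule F (ι → F)) => ¬ Good K ∧ finrank F K = j) ?_).trans ?_
    · rintro K ⟨k1, k2, k3⟩
      exact ⟨_, by simp; omega, k1, rfl⟩
    refine le_trans (sum_le_sum (g := fun j => e * cnt (fun K : Submodule F (ι → F) =>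
      True ∧ finrank F K = j)) ?_) ?_
    · intro j hj
      simp only [mem_filter, mem_range] at hj
      refine (bad_j hq t j (by omega) hj.2.2 ht hν0 hν1 hν).trans
        (mul_le_mul_of_nonneg_left ((gauss_ge j (by omega)).trans
          (cnt_mono (fun K hK => ⟨trivial, hK⟩))) he0)
    · rw [← mul_sum, mul_comm]
      exact mul_le_mul_of_nonneg_right (cnt_fib _ _) he0
  nlinarith

end Pool.Agent.H.MP_e84969_co
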