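import Pool.Agent.H.MP_e84969_co.L

set_option linter.unusedSectionVars false

namespace Pool.Agent.H.MP_e84969_co
open Module Finset Filter Topology

lemma polygeo (k : ℕ) {r : ℝ} (h0 : 0 < r) (h1 : r < 1) :
    Tendsto (fun n : ℕ => ((n : ℝ) + 1) ^ k * r ^ n) atTop (𝓝 0) := by
  have h := (tendsto_pow_const_mul_const_pow_of_abs_lt_one k
    (r := r) (by rwa [abs_of_pos h0])).comp (tendsto_add_atTop_nat 1)
  have h2 := h.const_mul r⁻¹
  rw [mul_zero] at h2
  refine h2.congr (fun n => ?_)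
  simp only [Function.comp]
  push_cast
  field_simp
  ring

lemma lim1 {q : ℝ} (hq : 1 < q) :
    Tendsto (fun n : ℕ => ((n : ℝ) + 1) ^ 2 * ((1 + n * q * q ^ (-(n : ℝ) / (12 * q))) ^ n - 1))
      atTop (𝓝 0) := by
  have hq0 : 0 < q := by linarith
  set r := q ^ (-1 / (12 * q)) with hr
  have r0 : 0 < r := by positivity
  have r1 : r < 1 := Real.rpow_lt_one_of_one_lt_of_neg hq (div_neg_of_neg_of_pos (by norm_num)
    (by positivity))
  have e : ∀ n : ℕ, q ^ (-(n : ℝ) / (12 * q)) = r ^ n := by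
    intro n; rw [hr, ← Real.rpow_natCast, ← Real.rpow_mul hq0.le]; congr 1; ring
  simp only [e]
  have h4 := (polygeo 4 r0 r1).const_mul (2 * q)
  rw [mul_zero] at h4
  refine squeeze_zero' (Eventually.of_forall (fun n => mul_nonneg (by positivity)
    (sub_nonneg.2 (one_le_pow₀ (le_add_of_nonneg_right (by positivity)))))) ?_ h4
  filter_upwards [h4.eventually (ge_mem_nhds (by norm_num : (0 : ℝ) < 1))] with n hn
  set y := n * q * r ^ n with hy
  have y0 : 0 ≤ y := by positivity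
  have n0 : (0 : ℝ) ≤ n := by positivity
  have a1 : n * y ≤ (n + 1) ^ 2 * (q * r ^ n) := by
    rw [hy]
    have : (n : ℝ) * n ≤ (n + 1) ^ 2 := by nlinarith
    calc _ = (n : ℝ) * n * (q * r ^ n) := by ring
      _ ≤ _ := by gcongr
  have a2 : ((n : ℝ) + 1) ^ 2 * (q * r ^ n) ≤ 2 * q * ((n + 1) ^ 4 * r ^ n) := by
    have : ((n : ℝ) + 1) ^ 2 ≤ (n + 1) ^ 4 := pow_le_pow_right₀ (by linarith) (by norm_num)
    have h2 : 0 ≤ q * r ^ n := by positivity
    nlinarith [mul_le_mul_of_nonneg_right this h2, mul_nonneg (by positivity : (0:ℝ) ≤ (n+1)^4) h2]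
  have a3 : (1 + y) ^ n ≤ Real.exp (n * y) := by
    rw [Real.exp_nat_mul]
    exact pow_le_pow_left₀ (by positivity) (by linarith [Real.add_one_le_exp y]) n
  have a4 := Real.abs_exp_sub_one_le (x := n * y) (by rw [abs_of_nonneg (by positivity)]; linarith)
  rw [abs_of_nonneg (by positivity : 0 ≤ n * y)] at a4
  have a5 := (le_abs_self _).trans a4
  calc _ ≤ ((n : ℝ) + 1) ^ 2 * (2 * ((n + 1) ^ 2 * (q * r ^ n))) := by
        gcongr; linarith
    _ = _ := by ring

lemma lim2 (Q k : ℕ) : Tendsto (fun n : ℕ => ((n.factorial * ((Q - 1) ^ n * k) : ℕ) : ℝ) *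
      (((n : ℝ) + 1) ^ 3 * 2 ^ n * (2 : ℝ) ^ (-(n : ℝ) ^ 2 / 3072))) atTop (𝓝 0) := by
  set r := (2 : ℝ) ^ (-1 / 3072 : ℝ) with hr
  have r0 : 0 < r := by positivity
  have r1 : r < 1 := Real.rpow_lt_one_of_one_lt_of_neg (by norm_num) (by norm_num)
  have e : ∀ n : ℕ, (2 : ℝ) ^ (-(n : ℝ) ^ 2 / 3072) = (r ^ n) ^ n := by
    intro n
    rw [hr, ← pow_mul, ← Real.rpow_natCast _ (n * n), ← Real.rpow_mul (by norm_num)]
    congr 1; push_cast; ring
  simp only [e]
  have h1 := (polygeo 1 r0 r1).const_mul (2 * (Q : ℝ))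
  have h3 := (polygeo 3 (r := 1 / 2) (by norm_num) (by norm_num)).const_mul (k : ℝ)
  rw [mul_zero] at h1 h3
  refine squeeze_zero' (Eventually.of_forall (fun n => by positivity)) ?_ h3
  filter_upwards [h1.eventually (ge_mem_nhds (by norm_num : (0 : ℝ) < 1 / 2))] with n hn
  have a1 : (n.factorial : ℝ) ≤ (n + 1) ^ n := by
    exact_mod_cast (Nat.factorial_le_pow n).trans (Nat.pow_le_pow_left (Nat.le_succ n) n)
  have a2 : (((Q - 1 : ℕ) : ℝ)) ≤ Q := by exact_mod_cast Nat.sub_le Q 1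
  push_cast
  calc _ ≤ ((n : ℝ) + 1) ^ n * ((Q : ℝ) ^ n * k) * ((n + 1) ^ 3 * 2 ^ n * (r ^ n) ^ n) := by gcongr
    _ = k * ((n + 1) ^ 3 * (2 * Q * ((n + 1) ^ 1 * r ^ n)) ^ n) := by
        rw [mul_pow, mul_pow, mul_pow, pow_one]; ring
    _ ≤ _ := by gcongr

variable {F : Type} [Field F] [Fintype F]

theorem main (hq : 3 ≤ Fintype.card F) (c : ℕ → ℕ)
    (hc : ∀ n, ∃ (C : Type) (cls : Submodule F (Fin n → F) → C), Function.Surjective cls ∧
      (∀ (g : G F (Fin n)) K, cls (g • K) = cls K) ∧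
      (∀ K K', cls K = cls K' → ∃ π : Equiv.Perm (Fin n), ∀ S, Ind K S ↔ Ind K' (π '' S)) ∧
      c n = Nat.card C) :
    Tendsto (fun n => (c n : ℝ) * (Nat.card (G F (Fin n)) / ((Fintype.card F : ℝ) - 1)) /
      NN F (Fin n)) atTop (𝓝 1) := by
  have hq2 := q2 (F := F)
  set q : ℝ := (Fintype.card F : ℝ) with hqd
  have hN : ∀ n, 0 < NN F (Fin n) := fun n =>
    lt_of_lt_of_le (by positivity) (total_ge (F := F) (ι := Fin n))
  rw [tendsto_order]
  constructor
  · intro a ha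
    have ht := (tendsto_pow_atTop_nhds_zero_of_lt_one (r := 1 / q) (by positivity)
      (by rw [div_lt_one (by linarith)]; linarith)).const_mul 2
    rw [mul_zero] at ht
    obtain ⟨t, ht⟩ := (ht.eventually (gt_mem_nhds (by linarith : (0 : ℝ) < 1 - a))).exists
    have hμ0 : 0 < 1 - 1 / q ^ 3 := by
      rw [sub_pos, div_lt_one (by positivity)]; exact one_lt_pow₀ (by linarith) (by norm_num)
    have hμ1 : 1 - 1 / q ^ 3 < 1 := by
      have : 0 < 1 / q ^ 3 := by positivity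
      linarith
    set ν := Real.sqrt (Real.sqrt (1 - 1 / q ^ 3)) with hν
    have ν0 : 0 < ν := Real.sqrt_pos.2 (Real.sqrt_pos.2 hμ0)
    have ν1 : ν < 1 := by
      rw [hν, Real.sqrt_lt' one_pos, one_pow, Real.sqrt_lt' one_pos, one_pow]; exact hμ1
    have ν4 : ν ^ 4 = 1 - 1 / q ^ 3 := by
      rw [show 4 = 2 * 2 from rfl, pow_mul, hν, Real.sq_sqrt (Real.sqrt_nonneg _),
        Real.sq_sqrt hμ0.le]
    have l1 := ((polygeo (t + 3) ν0 ν1).const_mul (q ^ 3)).add
      ((polygeo 1 (r := 1 / 2) (by norm_num) (by norm_num)).const_mul (2 * q))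
    rw [mul_zero, mul_zero, add_zero] at l1
    filter_upwards [l1.eventually (gt_mem_nhds (by linarith : (0 : ℝ) < 1 - a - 2 * (1 / q) ^ t)),
      eventually_ge_atTop (16 + 4 * t)] with n h1 h2
    obtain ⟨C, cls, c1, c2, c3, c4⟩ := hc n
    have b1 := lower (F := F) (ι := Fin n) hq t (by simp; omega) (by simp; omega) ν0.le ν1.le ν4
    have b2 := good_le (F := F) (ι := Fin n) (by simp; omega) cls c1 c3
    rw [lt_div_iff₀ (hN n), c4]
    refine lt_of_lt_of_le ?_ (b1.trans b2)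
    rw [mul_comm]
    refine mul_lt_mul_of_pos_left ?_ (hN n)
    simp only [Fintype.card_fin, ← hqd]
    have b3 : (n : ℝ) ^ t * (n ^ 3 * q ^ 3) * ν ^ n ≤ q ^ 3 * ((n + 1) ^ (t + 3) * ν ^ n) := by
      calc _ ≤ ((n : ℝ) + 1) ^ t * ((n + 1) ^ 3 * q ^ 3) * ν ^ n := by gcongr <;> linarith
        _ = _ := by ring
    have b4 : 2 / q ^ t = 2 * (1 / q) ^ t := by rw [one_div, inv_pow]; rfl
    rw [pow_one] at h1
    linarith
  · intro a ha
    have l1 := ((lim1 (q := q) (by linarith)).const_mul (4 * q ^ 2)).add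
      ((lim2 (Fintype.card F) (Nat.card (F ≃+* F))).const_mul (10 * q))
    rw [mul_zero, mul_zero, add_zero] at l1
    filter_upwards [l1.eventually (gt_mem_nhds
      (mul_pos (by linarith) (by linarith) : (0 : ℝ) < (a - 1) * (q - 1))),
      eventually_ge_atTop 24] with n h1 h2
    obtain ⟨C, cls, c1, c2, c3, c4⟩ := hc n
    have b1 := upper (F := F) (ι := Fin n) hq (by simpa using h2) cls c1 c2
    rw [div_lt_iff₀ (hN n), c4, ← mul_div_assoc, div_lt_iff₀ (by linarith)]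
    refine b1.trans_lt ?_
    rw [mul_comm a, mul_assoc (NN F (Fin n))]
    refine mul_lt_mul_of_pos_left ?_ (hN n)
    rw [card_G]
    simp only [Fintype.card_fin, ← hqd]
    linarith

end Pool.Agent.H.MP_e84969_co
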