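import Pool.Agent.H.MP_e84969_co.E

set_option linter.unusedSectionVars false

namespace Pool.Agent.H.MP_e84969_co
open Module Finset

variable {F : Type} [Field F] [Fintype F] {ι : Type} [Fintype ι] [DecidableEq ι]


noncomputable def Fix (g : G F ι) : ℝ := cnt (fun K : Submodule F (ι → F) => g • K = K)
noncomputable def NN (F : Type) [Field F] (ι : Type) : ℝ :=
  cnt (fun _ : Submodule F (ι → F) => True)
def Big (g : G F ι) : Prop := (Fintype.card ι) < 8 * (univ.filter (fun i => g.p i ≠ i)).card ∨ ∃ x, g.s x ≠ x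

lemma rpow_split {x : ℝ} (hx : ((Fintype.card ι) : ℝ) ^ 2 / 3072 ≤ x) :
    (Fintype.card F : ℝ) ^ (((Fintype.card ι) : ℝ) ^ 2 / 4 - x) ≤ (Fintype.card F : ℝ) ^ (((Fintype.card ι) : ℝ) ^ 2 / 4) * (2 : ℝ) ^ (-((Fintype.card ι) : ℝ) ^ 2 / 3072) := by
  have hq2 := q2 (F := F)
  have hx0 : 0 ≤ x := le_trans (by positivity) hx
  rw [sub_eq_add_neg, Real.rpow_add (by linarith)]
  refine mul_le_mul_of_nonneg_left ?_ (by positivity)
  calc (Fintype.card F : ℝ) ^ (-x) ≤ (2 : ℝ) ^ (-x) :=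
        Real.rpow_le_rpow_of_nonpos (by norm_num) hq2 (by linarith)
    _ ≤ _ := Real.rpow_le_rpow_of_exponent_le (by norm_num) (by linarith)

lemma fixB (hq : 3 ≤ Fintype.card F) (hn : 24 ≤ (Fintype.card ι)) (g : G F ι) (hg : Big g) :
    Fix g ≤ 10 * ((Fintype.card ι) + 1) ^ 3 * 2 ^ (Fintype.card ι) *
      ((Fintype.card F : ℝ) ^ (((Fintype.card ι) : ℝ) ^ 2 / 4) * (2 : ℝ) ^ (-((Fintype.card ι) : ℝ) ^ 2 / 3072)) := by
  have hq1 := q1 (F := F)
  set P := (Fintype.card F : ℝ) ^ (((Fintype.card ι) : ℝ) ^ 2 / 4) * (2 : ℝ) ^ (-((Fintype.card ι) : ℝ) ^ 2 / 3072) with hP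
  have hP0 : 0 ≤ P := by positivity
  have ht := tail (F := F) (ι := ι) hq
  have e : 3 * ((Fintype.card ι) : ℝ) ^ 2 / 16 = ((Fintype.card ι) : ℝ) ^ 2 / 4 - ((Fintype.card ι) : ℝ) ^ 2 / 16 := by ring
  rw [e] at ht
  have ht2 := rpow_split (F := F) (ι := ι) (x := ((Fintype.card ι) : ℝ) ^ 2 / 16) (by nlinarith [sq_nonneg ((Fintype.card ι) : ℝ)])
  rw [← hP] at ht2
  have n1 : (1 : ℝ) ≤ (Fintype.card ι) + 1 := le_add_of_nonneg_left (by positivity)
  have n2 : (1 : ℝ) ≤ 2 ^ (Fintype.card ι) := one_le_pow₀ (by norm_num)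
  set M : ℝ := ((Fintype.card ι) + 1) ^ 3 * 2 ^ (Fintype.card ι) with hM
  have m1 : ((Fintype.card ι) : ℝ) + 1 ≤ M :=
    le_trans (le_self_pow₀ n1 (by norm_num)) (le_mul_of_one_le_right (by positivity) n2)
  have m2 : (((Fintype.card ι) : ℝ) + 1) ^ 3 ≤ M := le_mul_of_one_le_right (by positivity) n2
  have m3 : (((Fintype.card ι) : ℝ) + 1) ^ 2 * 2 ^ (Fintype.card ι) ≤ M :=
    mul_le_mul_of_nonneg_right (pow_le_pow_right₀ n1 (by norm_num)) (by positivity)
  have ht3 : cnt (fun K : Submodule F (ι → F) => 4 * finrank F K < (Fintype.card ι) ∨ 3 * (Fintype.card ι) < 4 * finrank F K) ≤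
      M * (2 * P) := ht.trans (by gcongr)
  have goal : ∀ x : ℝ, x ≤ M * (8 * P) + M * (2 * P) → x ≤ 10 * ((Fintype.card ι) + 1) ^ 3 * 2 ^ (Fintype.card ι) * P := by
    intro x hx; refine hx.trans (le_of_eq ?_); rw [hM]; ring
  apply goal
  by_cases h : (Fintype.card ι) < 8 * (univ.filter (fun i => g.p i ≠ i)).card
  · obtain ⟨S0, h1, h2, h3⟩ := exS g.p (univ.filter (fun i => g.p i ≠ i))
    obtain ⟨S, h4, h5⟩ := exists_subset_card_eq (s := S0) (by omega : (Fintype.card ι) / 24 ≤ S0.card)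
    have h6 := fix_big hq g S (fun i hi hp => by
      have := h1 (h4 hi)
      simp only [mem_filter, mem_univ, true_and] at this
      exact this (h3 i (h4 hi) (h4 hp))) (by omega)
    have h7 := rpow_split (F := F) (ι := ι) (x := 3 * (S.card : ℝ) ^ 2 / 4) (by
      have : ((Fintype.card ι) : ℝ) ≤ 48 * S.card := by exact_mod_cast (by omega : (Fintype.card ι) ≤ 48 * S.card)
      have := mul_self_le_mul_self (by positivity) this
      nlinarith)
    rw [← hP] at h7
    refine (cnt_or (fun K hK => ?_)).trans (add_le_add (h6.trans (by gcongr)) ht3)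
    by_cases h : (Fintype.card ι) ≤ 4 * finrank F K
    · exact Or.inl ⟨hK, h⟩
    · exact Or.inr (Or.inl (by omega))
  · have hs := hg.resolve_left h
    have h6 := fix_semi hq g hs (univ.filter (fun i => g.p i ≠ i))ᶜ (fun i hi => by simpa using hi)
      (by rw [card_compl]; omega)
    have h7 : (2 : ℝ) ^ (-((Fintype.card ι) : ℝ) ^ 2 / 64) ≤ (2 : ℝ) ^ (-((Fintype.card ι) : ℝ) ^ 2 / 3072) :=
      Real.rpow_le_rpow_of_exponent_le (by norm_num) (by nlinarith [sq_nonneg ((Fintype.card ι) : ℝ)])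
    refine (cnt_or (fun K hK => ?_)).trans (add_le_add (h6.trans ?_) ht3)
    · by_cases h : (Fintype.card ι) ≤ 4 * finrank F K ∧ 4 * finrank F K ≤ 3 * (Fintype.card ι)
      · exact Or.inl ⟨hK, h⟩
      · exact Or.inr (by omega)
    · calc _ ≤ (((Fintype.card ι) : ℝ) + 1) ^ 2 * (2 ^ (Fintype.card ι) * (2 * (Fintype.card F : ℝ) ^ (((Fintype.card ι) : ℝ) ^ 2 / 4) *
          (2 : ℝ) ^ (-((Fintype.card ι) : ℝ) ^ 2 / 3072))) := by gcongr
        _ = ((((Fintype.card ι) : ℝ) + 1) ^ 2 * 2 ^ (Fintype.card ι)) * (2 * P) := by rw [hP]; ring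
        _ ≤ M * (8 * P) := by gcongr; norm_num

lemma small_l (hn : 0 < (Fintype.card ι)) (g : G F ι) (hg : ¬ Big g) :
    ∃ l, ((Fintype.card ι) : ℝ) ≤ 2 * (Fintype.card F : ℝ) * ((Fintype.card ι) - (Wd g l).card) := by
  classical
  by_contra hh
  push Not at hh
  have hq1 := q1 (F := F)
  have h1 : cnt (fun i => g.p i = i) ≤ cnt (fun _ : Fˣ => True) * ((Fintype.card ι) / (2 * (Fintype.card F : ℝ))) := by
    refine cnt_union _ (fun l i => g.p i = i ∧ g.d i = l) _ (fun i hi => ⟨_, trivial, hi, rfl⟩) ?_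
    intro l _
    have h2 : cnt (fun i => g.p i = i ∧ g.d i = l) + (Wd g l).card = (Fintype.card ι) := by
      rw [cnt_eq_card]
      have : Wd g l = univ.filter (fun i => ¬ (g.p i = i ∧ g.d i = l)) := by
        ext i; simp [mem_Wd]
      rw [this]
      exact_mod_cast (card_filter_add_card_filter_not _).trans card_univ
    rw [le_div_iff₀ (by positivity)]
    have := hh l
    nlinarith
  have h3 : cnt (fun _ : Fˣ => True) ≤ (Fintype.card F : ℝ) := by
    rw [← cnt_true]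
    exact cnt_inj (fun u : Fˣ => (u : F)) (fun _ _ => trivial) (fun _ _ _ _ h => Units.ext h)
  have h4 : cnt (fun i => g.p i = i) ≤ (Fintype.card ι) / 2 := by
    refine h1.trans ((mul_le_mul_of_nonneg_right h3 (by positivity)).trans (le_of_eq ?_))
    field_simp
  have h5 : ¬ (Fintype.card ι) < 8 * (univ.filter (fun i => g.p i ≠ i)).card := fun h => hg (Or.inl h)
  have h6 : (univ.filter (fun i => g.p i = i)).card + (univ.filter (fun i => g.p i ≠ i)).card = (Fintype.card ι) :=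
    (card_filter_add_card_filter_not _).trans card_univ
  rw [cnt_eq_card, le_div_iff₀ (by norm_num)] at h4
  have : (univ.filter (fun i => g.p i = i)).card * 2 ≤ (Fintype.card ι) := by exact_mod_cast h4
  omega

lemma sum_ite_cnt {α : Type*} [Fintype α] (p : α → Prop) [DecidablePred p] (c : ℝ) :
    ∑ a, (if p a then c else 0) = cnt p * c := by
  rw [cnt_eq_card, ← sum_filter, sum_const, nsmul_eq_mul]

lemma cnt_W (l : Fˣ) (W : Finset ι) :
    cnt (fun g : G F ι => (∀ x, g.s x = x) ∧ Wd g l = W) ≤ ((Fintype.card ι) * (Fintype.card F : ℝ)) ^ W.card := by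
  classical
  refine (cnt_inj (r := fun _ : {i // i ∈ W} → ι × F => True)
    (fun g i => (g.p i, (g.d i : F))) (fun _ _ => trivial) ?_).trans ?_
  · rintro g h ⟨g1, g2⟩ ⟨h1, h2⟩ e
    have key : ∀ i, g.p i = h.p i ∧ g.d i = h.d i := by
      intro i
      by_cases hi : i ∈ W
      · have := congrFun e ⟨i, hi⟩
        simp only [Prod.mk.injEq] at this
        exact ⟨this.1, Units.ext this.2⟩
      · have a := hi
        have b := hi
        rw [← g2, mem_Wd, not_not] at a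
        rw [← h2, mem_Wd, not_not] at b
        exact ⟨a.1.trans b.1.symm, a.2.trans b.2.symm⟩
    ext i
    · exact (key i).1
    · rw [(key i).2]
    · rw [g1, h1]
  · rw [cnt_true]; simp

lemma cnt_units : cnt (fun _ : Fˣ => True) = (Fintype.card F : ℝ) - 1 := by
  classical
  rw [cnt_true, Fintype.card_units, Nat.cast_sub Fintype.card_pos]; simp

lemma sumFix (hq : 3 ≤ Fintype.card F) (hn : 24 ≤ (Fintype.card ι)) [Fintype (G F ι)] :
    ∑ g : G F ι, Fix g ≤ ((Fintype.card F : ℝ) - 1) * NN F ι +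
      (4 * ((Fintype.card ι) + 1) ^ 2 * (Fintype.card F : ℝ) ^ (((Fintype.card ι) : ℝ) ^ 2 / 4)) *
        ((Fintype.card F : ℝ) * ((1 + (Fintype.card ι) * (Fintype.card F : ℝ) * (Fintype.card F : ℝ) ^ (-((Fintype.card ι) : ℝ) / (12 * (Fintype.card F : ℝ)))) ^ (Fintype.card ι) - 1)) +
      Nat.card (G F ι) * (10 * ((Fintype.card ι) + 1) ^ 3 * 2 ^ (Fintype.card ι) *
        ((Fintype.card F : ℝ) ^ (((Fintype.card ι) : ℝ) ^ 2 / 4) * (2 : ℝ) ^ (-((Fintype.card ι) : ℝ) ^ 2 / 3072))) := by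
  classical
  have hq1 := q1 (F := F)
  set B := 10 * (((Fintype.card ι) : ℝ) + 1) ^ 3 * 2 ^ (Fintype.card ι) *
        ((Fintype.card F : ℝ) ^ (((Fintype.card ι) : ℝ) ^ 2 / 4) * (2 : ℝ) ^ (-((Fintype.card ι) : ℝ) ^ 2 / 3072)) with hB
  set C := 4 * (((Fintype.card ι) : ℝ) + 1) ^ 2 * (Fintype.card F : ℝ) ^ (((Fintype.card ι) : ℝ) ^ 2 / 4) with hC
  set θ := (Fintype.card F : ℝ) ^ (-((Fintype.card ι) : ℝ) / (12 * (Fintype.card F : ℝ))) with hθ
  have hB0 : 0 ≤ B := by positivity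
  have hC0 : 0 ≤ C := by positivity
  have hθ0 : 0 ≤ θ := by positivity
  have hN0 : 0 ≤ NN F ι := cnt_nonneg _
  have key : ∀ g : G F ι, Fix g ≤ ∑ l : Fˣ, (if (∀ x, g.s x = x) ∧ Wd g l = ∅ then NN F ι else 0) +
      C * ∑ l : Fˣ, ∑ W ∈ (univ : Finset (Finset ι)).erase ∅,
        (if (∀ x, g.s x = x) ∧ Wd g l = W then θ ^ W.card else 0) + B := by
    intro g
    have p1 : ∀ l, 0 ≤ (if (∀ x, g.s x = x) ∧ Wd g l = ∅ then NN F ι else 0) := fun l => by
      split_ifs <;> simp [hN0]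
    have p2 : ∀ l W, 0 ≤ (if (∀ x, g.s x = x) ∧ Wd g l = W then θ ^ W.card else 0) := fun l W => by
      split_ifs <;> positivity
    have p3 := sum_nonneg (s := univ) (fun l _ => p1 l)
    have p4 := sum_nonneg (s := univ) (fun l _ =>
      sum_nonneg (s := (univ : Finset (Finset ι)).erase ∅) (fun W _ => p2 l W))
    have p5 := mul_nonneg hC0 p4
    by_cases hg : Big g
    · have := fixB hq hn g hg
      linarith
    obtain ⟨l, hl⟩ := small_l (by omega) g hg
    have hs : ∀ x, g.s x = x := by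
      by_contra h; push Not at h; exact hg (Or.inr h)
    by_cases hW : Wd g l = ∅
    · have a1 := single_le_sum (f := fun l => if (∀ x, g.s x = x) ∧ Wd g l = ∅ then NN F ι else 0)
        (fun l _ => p1 l) (mem_univ l)
      simp only [if_pos (And.intro hs hW)] at a1
      have a2 : Fix g ≤ NN F ι := cnt_mono (fun _ _ => trivial)
      linarith
    · have a1 := single_le_sum (f := fun l => ∑ W ∈ (univ : Finset (Finset ι)).erase ∅,
        (if (∀ x, g.s x = x) ∧ Wd g l = W then θ ^ W.card else 0))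
        (fun l _ => sum_nonneg (fun W _ => p2 l W)) (mem_univ l)
      have a2 := single_le_sum (s := (univ : Finset (Finset ι)).erase ∅)
        (f := fun W => if (∀ x, g.s x = x) ∧ Wd g l = W then θ ^ W.card else 0)
        (fun W _ => p2 l W) (a := Wd g l) (by simpa using hW)
      rw [if_pos ⟨hs, rfl⟩] at a2
      have a3 : Fix g ≤ C * θ ^ (Wd g l).card := fix_lin hq g hs l hl
      have a4 := mul_le_mul_of_nonneg_left (a2.trans a1) hC0
      linarith
  refine (sum_le_sum (fun g _ => key g)).trans ?_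
  rw [sum_add_distrib, sum_add_distrib, ← mul_sum]
  refine add_le_add (add_le_add ?_ (mul_le_mul_of_nonneg_left ?_ hC0)) (le_of_eq ?_)
  · rw [sum_comm, ← cnt_units, cnt_true]
    refine (sum_le_card_nsmul _ _ (NN F ι) (fun l _ => ?_)).trans (by simp)
    rw [sum_ite_cnt]
    have := cnt_W (ι := ι) l ∅
    rw [card_empty, pow_zero] at this
    exact mul_le_of_le_one_left hN0 this
  · rw [sum_comm]
    have h1 : (1 + (Fintype.card ι) * (Fintype.card F : ℝ) * θ) ^ (Fintype.card ι) - 1 =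
        ∑ W ∈ (univ : Finset (Finset ι)).erase ∅, ((Fintype.card ι) * (Fintype.card F : ℝ) * θ) ^ W.card := by
      have h := prod_one_add (s := (univ : Finset ι)) (f := fun _ => (Fintype.card ι) * (Fintype.card F : ℝ) * θ)
      simp only [prod_const, card_univ, powerset_univ] at h
      rw [h, ← add_sum_erase _ _ (mem_univ ∅)]; simp
    have h2 : 0 ≤ (1 + (Fintype.card ι) * (Fintype.card F : ℝ) * θ) ^ (Fintype.card ι) - 1 := by
      rw [h1]; positivity
    refine (sum_le_card_nsmul _ _ ((1 + (Fintype.card ι) * (Fintype.card F : ℝ) * θ) ^ (Fintype.card ι) - 1) (fun l _ => ?_)).trans ?_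
    · rw [sum_comm, h1]
      refine sum_le_sum (fun W _ => ?_)
      rw [sum_ite_cnt, mul_pow]
      exact mul_le_mul_of_nonneg_right (cnt_W l W) (by positivity)
    · rw [nsmul_eq_mul, card_univ, ← cnt_true, cnt_units]
      exact mul_le_mul_of_nonneg_right (by linarith) h2
  · simp

lemma Q_le : (Fintype.card F : ℝ) ^ (((Fintype.card ι) : ℝ) ^ 2 / 4) ≤ (Fintype.card F : ℝ) * NN F ι := by
  have hq1 := q1 (F := F)
  have h := total_ge (F := F) (ι := ι)
  refine le_trans ?_ (mul_le_mul_of_nonneg_left h (by linarith))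
  rw [mul_comm, ← Real.rpow_add_one (by linarith)]
  exact Real.rpow_le_rpow_of_exponent_le hq1 (by linarith)

lemma upper (hq : 3 ≤ Fintype.card F) (hn : 24 ≤ (Fintype.card ι)) {C : Type} (cls : Submodule F (ι → F) → C)
    (h1 : Function.Surjective cls) (h2 : ∀ (g : G F ι) K, cls (g • K) = cls K) :
    (Nat.card C : ℝ) * Nat.card (G F ι) ≤ NN F ι * (((Fintype.card F : ℝ) - 1) +
      4 * (Fintype.card F : ℝ) ^ 2 * (((Fintype.card ι) + 1) ^ 2 * ((1 + (Fintype.card ι) * (Fintype.card F : ℝ) * (Fintype.card F : ℝ) ^ (-((Fintype.card ι) : ℝ) / (12 * (Fintype.card F : ℝ)))) ^ (Fintype.card ι) - 1)) +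
      10 * (Fintype.card F : ℝ) * (Nat.card (G F ι) * (((Fintype.card ι) + 1) ^ 3 * 2 ^ (Fintype.card ι) * (2 : ℝ) ^ (-((Fintype.card ι) : ℝ) ^ 2 / 3072)))) := by
  classical
  have := Fintype.ofFinite (G F ι)
  have := Fintype.ofFinite (Submodule F (ι → F))
  have hq1 := q1 (F := F)
  have hb := MulAction.sum_card_fixedBy_eq_card_orbits_mul_card_group (G F ι) (Submodule F (ι → F))
  have h3 : Nat.card C ≤ Fintype.card (Quotient (MulAction.orbitRel (G F ι) (Submodule F (ι → F)))) := by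
    rw [← Nat.card_eq_fintype_card]
    refine Nat.card_le_card_of_surjective (Quotient.lift cls ?_) ?_
    · rintro a b ⟨g, rfl⟩; exact h2 g b
    · intro c; obtain ⟨K, rfl⟩ := h1 c; exact ⟨Quotient.mk _ K, rfl⟩
  have h4 : (Nat.card C : ℝ) * Nat.card (G F ι) ≤ ∑ g : G F ι, Fix g := by
    have e : ∀ g : G F ι, Fix g = (Fintype.card (MulAction.fixedBy (Submodule F (ι → F)) g) : ℝ) := by
      intro g; rw [Fix, cnt_natCard, ← Nat.card_eq_fintype_card]; rfl
    simp only [e]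
    rw [← Nat.cast_sum, hb, Nat.card_eq_fintype_card (α := G F ι)]
    exact_mod_cast Nat.mul_le_mul_right _ h3
  refine h4.trans ((sumFix hq hn).trans ?_)
  have hQ := Q_le (F := F) (ι := ι)
  have h5 : 0 ≤ (1 + (Fintype.card ι) * (Fintype.card F : ℝ) * (Fintype.card F : ℝ) ^ (-((Fintype.card ι) : ℝ) / (12 * (Fintype.card F : ℝ)))) ^ (Fintype.card ι) - 1 := by
    rw [sub_nonneg]; exact one_le_pow₀ (le_add_of_nonneg_right (by positivity))
  calc _ ≤ ((Fintype.card F : ℝ) - 1) * NN F ι +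
      (4 * ((Fintype.card ι) + 1) ^ 2 * ((Fintype.card F : ℝ) * NN F ι)) *
        ((Fintype.card F : ℝ) * ((1 + (Fintype.card ι) * (Fintype.card F : ℝ) * (Fintype.card F : ℝ) ^ (-((Fintype.card ι) : ℝ) / (12 * (Fintype.card F : ℝ)))) ^ (Fintype.card ι) - 1)) +
      Nat.card (G F ι) * (10 * ((Fintype.card ι) + 1) ^ 3 * 2 ^ (Fintype.card ι) *
        (((Fintype.card F : ℝ) * NN F ι) * (2 : ℝ) ^ (-((Fintype.card ι) : ℝ) ^ 2 / 3072))) := by gcongr
    _ = _ := by ring

end Pool.Agent.H.MP_e84969_co
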